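import Mathlib

/-!
Definitions for the problem MP_106964_gt (transfer of tautness).

All Riemannian manifolds are embedded submanifolds of a Euclidean space `V`, with the induced
Riemannian metric.
-/

set_option autoImplicit false

open Set Filter MeasureTheory Module Topology
open scoped ContDiff RealInnerProductSpace Cardinal

namespace Pool.Agent.Helper54.Taut

variable {V : Type} [NormedAddCommGroup V] [InnerProductSpace ℝ V]

/-- `N` is an embedded smooth submanifold of dimension `d` of the Euclidean space `V`: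
near each of its points `N` is the zero set of a smooth submersion. -/
def IsSubmanifold (d : ℕ) (N : Set V) : Prop :=
  ∀ x ∈ N, ∃ (W : Type) (_ : NormedAddCommGroup W) (_ : NormedSpace ℝ W)
    (_ : FiniteDimensional ℝ W) (U : Set V) (G : V → W),
    finrank ℝ W + d = finrank ℝ V ∧ IsOpen U ∧ x ∈ U ∧ ContDiffOn ℝ ∞ G U ∧
    (∀ y ∈ U, Function.Surjective (fderiv ℝ G y)) ∧ N ∩ U = {y | y ∈ U ∧ G y = 0}

/-- `v` is tangent to `N` at `x`: it is the velocity at time `0` of a smooth curve in `N` that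
passes through `x` at time `0`. -/
def IsTangent (N : Set V) (x v : V) : Prop :=
  ∃ c : ℝ → V, ContDiff ℝ ∞ c ∧ c 0 = x ∧ (∀ᶠ s in 𝓝 (0 : ℝ), c s ∈ N) ∧ deriv c 0 = v

/-- `c` is a (complete) geodesic of `N`: a smooth curve in `N` whose acceleration is everywhere
orthogonal to `N`.  (All the manifolds `N` used below are compact, so every geodesic extends to
the whole real line.) -/
def IsGeodesic (N : Set V) (c : ℝ → V) : Prop :=
  ContDiff ℝ ∞ c ∧ (∀ t, c t ∈ N) ∧ ∀ t v, IsTangent N (c t) v → ⟪deriv (deriv c) t, v⟫ = 0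

/-- The curve `c` starts on `M` and orthogonally to `M`. -/
def StartsOrthogonally (M : Set V) (c : ℝ → V) : Prop :=
  c 0 ∈ M ∧ ∀ v, IsTangent M (c 0) v → ⟪deriv c 0, v⟫ = 0

/-- `N` is a compact (connected) symmetric space: for every `x ∈ N` there is an involutive
isometry of `N` that fixes `x` and whose differential at `x` is `-1`. -/
def IsCompactSymmetricSpace (N : Set V) : Prop :=
  IsCompact N ∧ IsConnected N ∧ (∃ d, IsSubmanifold d N) ∧
    ∀ x ∈ N, ∃ σ : V → V, ContDiff ℝ ∞ σ ∧ (∀ y ∈ N, σ y ∈ N ∧ σ (σ y) = y) ∧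
      (∀ y ∈ N, ∀ v, IsTangent N y v → ‖fderiv ℝ σ y v‖ = ‖v‖) ∧
      σ x = x ∧ ∀ v, IsTangent N x v → fderiv ℝ σ x v = -v

/-- `N₁` is a compact (connected) embedded totally geodesic submanifold of `N₀`: every geodesic
of `N₁` is a geodesic of `N₀`. -/
def IsCompactTotallyGeodesic (N₀ N₁ : Set V) : Prop :=
  N₁ ⊆ N₀ ∧ IsCompact N₁ ∧ IsConnected N₁ ∧ (∃ d, IsSubmanifold d N₁) ∧
    ∀ c, IsGeodesic N₁ c → IsGeodesic N₀ c

/-- Lebesgue measure on `[0,1]`. -/
noncomputable abbrev leb : Measure ℝ := volume.restrict (Icc (0 : ℝ) 1)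

/-- The space `H¹([0,1], V)`; the pair `(x, g)` stands for the path
`t ↦ x + ∫ s in 0..t, g s`, whose starting point is `x` and whose weak derivative is the
square-integrable function `g`. -/
abbrev H1 (V : Type) [NormedAddCommGroup V] : Type := V × Lp V 2 leb

/-- The path `t ↦ x + ∫ s in 0..t, g s` given by an element `(x, g)` of `H¹([0,1], V)`. -/
noncomputable def path {V : Type} [NormedAddCommGroup V] [NormedSpace ℝ V] (γ : H1 V) (t : ℝ) :
    V :=
  γ.1 + ∫ s in (0 : ℝ)..t, γ.2 s

/-- The space `P(N, M × p)` of `H¹` paths `[0,1] → N` from `M` to `p`; it carries the topology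
of `H¹([0,1], V)`. -/
def PathSpace (N M : Set V) (p : V) : Set (H1 V) :=
  {γ | path γ 0 ∈ M ∧ path γ 1 = p ∧ ∀ t ∈ Icc (0 : ℝ) 1, path γ t ∈ N}

/-- The energy `∫ ‖γ'(t)‖² dt`. -/
noncomputable def energy (γ : H1 V) : ℝ := ∫ t in (0 : ℝ)..1, ‖γ.2 t‖ ^ 2

/-- The critical points of the energy functional `E_p` on `P(N, M × p)`: the geodesics from `M`
to `p` that start orthogonally to `M`. -/
def IsCriticalPoint (N M : Set V) (p : V) (γ : H1 V) : Prop :=
  γ ∈ PathSpace N M p ∧ ∃ c : ℝ → V, IsGeodesic N c ∧ StartsOrthogonally M c ∧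
    ∀ t ∈ Icc (0 : ℝ) 1, path γ t = c t

/-- There is a smooth `k`-parameter variation `Γ` of `γ` in `P(N, M × p)` such that the Hessian
at `0` of the energy of `Γ` is negative definite. -/
def HasNegativeVariation (N M : Set V) (p : V) (γ : H1 V) (k : ℕ) : Prop :=
  ∃ Γ : EuclideanSpace ℝ (Fin k) → H1 V, ContDiff ℝ ∞ Γ ∧ Γ 0 = γ ∧
    (∀ᶠ u in 𝓝 (0 : EuclideanSpace ℝ (Fin k)), Γ u ∈ PathSpace N M p) ∧
    ∀ u : EuclideanSpace ℝ (Fin k), u ≠ 0 →
      iteratedDeriv 2 (fun s : ℝ => energy (Γ (s • u))) 0 < 0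

/-- The Morse index of a critical point `γ` of `E_p`: the maximal dimension of a space of
variations on which the Hessian of `E_p` is negative definite. -/
noncomputable def morseIndex (N M : Set V) (p : V) (γ : H1 V) : ℕ∞ :=
  ⨆ k ∈ {k : ℕ | HasNegativeVariation N M p γ k}, (k : ℕ∞)

/-- `p` is a focal point of `M` in `N`: there is a geodesic from `M` to `p` starting orthogonally
to `M`, and a nonzero Jacobi field along it that vanishes at `p` and comes from a variation
through geodesics starting orthogonally to `M`. -/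
def IsFocalPoint (N M : Set V) (p : V) : Prop :=
  ∃ c : ℝ → ℝ → V, ContDiff ℝ ∞ (fun z : ℝ × ℝ => c z.1 z.2) ∧
    (∀ᶠ s in 𝓝 (0 : ℝ), IsGeodesic N (c s) ∧ StartsOrthogonally M (c s)) ∧ c 0 1 = p ∧
    deriv (fun s => c s 1) 0 = 0 ∧ ∃ t ∈ Icc (0 : ℝ) 1, deriv (fun s => c s t) 0 ≠ 0

/-- The `k`-th Betti number (as a cardinal) of a space with coefficients in the field `F`. -/
noncomputable def betti (F : Type) [Field F] (X : Type) [TopologicalSpace X] (k : ℕ) :
    Cardinal.{0} :=
  Module.rank F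
    ((((AlgebraicTopology.singularHomologyFunctor (ModuleCat.{0} F) k).obj
      (ModuleCat.of F F)).obj (TopCat.of X) : ModuleCat.{0} F))

/-- `E_p` is `F`-perfect: for every `k` the number of its critical points of index `k` is the
`k`-th Betti number of `P(N, M × p)` with coefficients in `F`. -/
def IsPerfect (F : Type) [Field F] (N M : Set V) (p : V) : Prop :=
  ∀ k : ℕ, #{γ : H1 V // IsCriticalPoint N M p γ ∧ morseIndex N M p γ = (k : ℕ∞)} =
    betti F (PathSpace N M p) k

/-- `M` is taut in `N`. -/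
def IsTaut (N M : Set V) : Prop :=
  ∃ (F : Type) (_ : Field F), ∀ p ∈ N, ¬ IsFocalPoint N M p → IsPerfect F N M p

end Pool.Agent.Helper54.Taut
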