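import Mathlib
import Pool.Agent.Helper54.Taut.Defs

/-!
The example: `N₀ = S² × S²`, `N₁ = C × C` (flat torus, `C` a great circle), `M` the diagonal
circle of `C × C`.
-/

set_option autoImplicit false

open Set Filter MeasureTheory Module Topology
open scoped ContDiff RealInnerProductSpace Cardinal

namespace Pool.Agent.Helper54.Taut

/-- Euclidean three-space. -/
abbrev E3 : Type := EuclideanSpace ℝ (Fin 3)

/-- Euclidean six-space, as `ℝ³ × ℝ³`. -/
abbrev V6 : Type := WithLp 2 (E3 × E3)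

/-- `S² × S²` -/
def NN0 : Set V6 := {y | ‖y.fst‖ = 1 ∧ ‖y.snd‖ = 1}

/-- `C × C`, where `C` is the equator of `S²` -/
def NN1 : Set V6 := {y | (‖y.fst‖ = 1 ∧ y.fst 2 = 0) ∧ (‖y.snd‖ = 1 ∧ y.snd 2 = 0)}

/-- the diagonal circle of `C × C` -/
def MM : Set V6 := {y | (‖y.fst‖ = 1 ∧ y.fst 2 = 0) ∧ y.fst = y.snd}

/-- the first component of the point `p` -/
noncomputable def p1 : E3 := !₂[3 / 5, 0, 4 / 5]

/-- the second component of the point `p` -/
noncomputable def p2 : E3 := !₂[-3 / 5, 0, 4 / 5]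

/-- the point `p` -/
noncomputable def pp : V6 := WithLp.toLp 2 (p1, p2)

end Pool.Agent.Helper54.Taut
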