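import Mathlib
import Pool.Agent.Helper54.Taut.Defs

/-!
Basic facts on the space `H¹([0,1], V)`.
-/

set_option autoImplicit false
set_option linter.unusedSectionVars false

open Set Filter MeasureTheory Module Topology
open scoped ContDiff RealInnerProductSpace Cardinal

namespace Pool.Agent.Helper54.Taut

variable {V : Type} [NormedAddCommGroup V] [NormedSpace ℝ V]
variable {W : Type} [NormedAddCommGroup W] [NormedSpace ℝ W]

instance : IsProbabilityMeasure leb := ⟨by simp⟩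

theorem integrable_of_Lp (g : Lp V 2 leb) : Integrable g leb :=
  (Lp.memLp g).integrable one_le_two

theorem intervalIntegrable_of_integrable {f : ℝ → V} (hf : Integrable f leb) {a b : ℝ}
    (ha : a ∈ Icc (0 : ℝ) 1) (hb : b ∈ Icc (0 : ℝ) 1) : IntervalIntegrable f volume a b := by
  rw [intervalIntegrable_iff]
  have : IntegrableOn f (Icc 0 1) volume := hf
  refine this.mono_set ?_
  intro x hx
  rcases le_total a b with h | h
  · rw [uIoc_of_le h] at hx
    exact ⟨ha.1.trans hx.1.le, hx.2.trans hb.2⟩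
  · rw [uIoc_of_ge h] at hx
    exact ⟨hb.1.trans hx.1.le, hx.2.trans ha.2⟩

theorem integral_congr_leb {f g : ℝ → V} (h : f =ᵐ[leb] g) {a b : ℝ}
    (ha : a ∈ Icc (0 : ℝ) 1) (hb : b ∈ Icc (0 : ℝ) 1) :
    ∫ s in a..b, f s = ∫ s in a..b, g s := by
  refine intervalIntegral.integral_congr_ae ?_
  have h' : ∀ᵐ x, x ∈ Icc (0 : ℝ) 1 → f x = g x := (ae_restrict_iff' measurableSet_Icc).1 h
  filter_upwards [h'] with x hx hxab
  refine hx ?_
  rcases le_total a b with h | h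
  · rw [uIoc_of_le h] at hxab
    exact ⟨ha.1.trans hxab.1.le, hxab.2.trans hb.2⟩
  · rw [uIoc_of_ge h] at hxab
    exact ⟨hb.1.trans hxab.1.le, hxab.2.trans ha.2⟩

theorem zero_mem_I : (0 : ℝ) ∈ Icc (0 : ℝ) 1 := ⟨le_rfl, zero_le_one⟩
theorem one_mem_I : (1 : ℝ) ∈ Icc (0 : ℝ) 1 := ⟨zero_le_one, le_rfl⟩

theorem path_zero (γ : H1 V) : path γ 0 = γ.1 := by
  simp [path]

theorem path_add (γ η : H1 V) {t : ℝ} (ht : t ∈ Icc (0 : ℝ) 1) :
    path (γ + η) t = path γ t + path η t := by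
  have h1 : ∫ s in (0 : ℝ)..t, (γ + η).2 s = ∫ s in (0 : ℝ)..t, (γ.2 s + η.2 s) :=
    integral_congr_leb (Lp.coeFn_add γ.2 η.2) zero_mem_I ht
  unfold path
  rw [h1, intervalIntegral.integral_add
    (intervalIntegrable_of_integrable (integrable_of_Lp _) zero_mem_I ht)
    (intervalIntegrable_of_integrable (integrable_of_Lp _) zero_mem_I ht)]
  simp only [Prod.fst_add]
  abel

theorem path_neg (γ : H1 V) {t : ℝ} (ht : t ∈ Icc (0 : ℝ) 1) :
    path (-γ) t = -path γ t := by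
  have h1 : ∫ s in (0 : ℝ)..t, (-γ).2 s = ∫ s in (0 : ℝ)..t, (-(γ.2 s)) :=
    integral_congr_leb (Lp.coeFn_neg γ.2) zero_mem_I ht
  unfold path
  rw [h1, intervalIntegral.integral_neg]
  simp only [Prod.fst_neg]
  abel

theorem path_sub (γ η : H1 V) {t : ℝ} (ht : t ∈ Icc (0 : ℝ) 1) :
    path (γ - η) t = path γ t - path η t := by
  rw [sub_eq_add_neg, path_add _ _ ht, path_neg _ ht, sub_eq_add_neg]

theorem integral_norm_le (g : Lp V 2 leb) : ∫ s, ‖g s‖ ∂leb ≤ ‖g‖ := by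
  have h1 : eLpNorm g 1 leb ≤ eLpNorm g 2 leb :=
    eLpNorm_le_eLpNorm_of_exponent_le one_le_two (Lp.memLp g).1
  rw [eLpNorm_one_eq_lintegral_enorm] at h1
  rw [integral_norm_eq_lintegral_enorm (Lp.memLp g).1, Lp.norm_def]
  exact ENNReal.toReal_mono (Lp.memLp g).2.ne h1

theorem norm_integral_le (g : Lp V 2 leb) {t : ℝ} (ht : t ∈ Icc (0 : ℝ) 1) :
    ‖∫ s in (0 : ℝ)..t, g s‖ ≤ ‖g‖ := by
  refine le_trans ?_ (integral_norm_le g)
  rw [intervalIntegral.integral_of_le ht.1]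
  refine (norm_integral_le_integral_norm _).trans ?_
  have hsub : Ioc 0 t ⊆ Icc (0 : ℝ) 1 := fun x hx => ⟨hx.1.le, hx.2.trans ht.2⟩
  exact setIntegral_mono_set (integrable_of_Lp g).norm
    (Eventually.of_forall fun x => norm_nonneg _) (LE.le.eventuallyLE hsub)

theorem norm_path_le (γ : H1 V) {t : ℝ} (ht : t ∈ Icc (0 : ℝ) 1) :
    ‖path γ t‖ ≤ 2 * ‖γ‖ := by
  have h1 := norm_integral_le γ.2 ht
  have h2 : ‖γ.1‖ ≤ ‖γ‖ := norm_fst_le γ
  have h3 : ‖γ.2‖ ≤ ‖γ‖ := norm_snd_le γ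
  calc ‖path γ t‖ ≤ ‖γ.1‖ + ‖∫ s in (0 : ℝ)..t, γ.2 s‖ := norm_add_le _ _
    _ ≤ 2 * ‖γ‖ := by linarith

theorem norm_path_sub_le (γ η : H1 V) {t : ℝ} (ht : t ∈ Icc (0 : ℝ) 1) :
    ‖path γ t - path η t‖ ≤ 2 * ‖γ - η‖ := by
  rw [← path_sub _ _ ht]
  exact norm_path_le _ ht

theorem continuous_path_apply {t : ℝ} (ht : t ∈ Icc (0 : ℝ) 1) :
    Continuous (fun γ : H1 V => path γ t) := by
  have : LipschitzWith 2 (fun γ : H1 V => path γ t) := by
    refine LipschitzWith.of_dist_le_mul fun γ η => ?_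
    rw [dist_eq_norm, dist_eq_norm]
    exact norm_path_sub_le γ η ht
  exact this.continuous

theorem continuousOn_path (γ : H1 V) : ContinuousOn (path γ) (Icc 0 1) := by
  have h : IntervalIntegrable (γ.2 : ℝ → V) volume 0 1 :=
    intervalIntegrable_of_integrable (integrable_of_Lp _) zero_mem_I one_mem_I
  have h2 := intervalIntegral.continuousOn_primitive_interval' h (by simp : (0 : ℝ) ∈ uIcc 0 1)
  rw [uIcc_of_le zero_le_one] at h2
  exact continuousOn_const.add h2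

theorem path_injective [CompleteSpace V] {γ η : H1 V}
    (h : ∀ t ∈ Icc (0 : ℝ) 1, path γ t = path η t) : γ = η := by
  have h0 : γ.1 = η.1 := by
    have := h 0 zero_mem_I
    rwa [path_zero, path_zero] at this
  have hd : ∀ t ∈ Icc (0 : ℝ) 1, ∫ s in (0 : ℝ)..t, (γ - η).2 s = 0 := by
    intro t ht
    have h1 := path_sub γ η ht
    rw [h t ht, sub_self] at h1
    unfold path at h1
    simpa [h0] using h1
  have hint : IntervalIntegrable ((γ - η).2 : ℝ → V) volume 0 1 :=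
    intervalIntegrable_of_integrable (integrable_of_Lp _) zero_mem_I one_mem_I
  have hae := hint.ae_hasDerivAt_integral
  have h3 : ((γ - η).2 : ℝ → V) =ᵐ[leb] 0 := by
    rw [Filter.EventuallyEq, ae_restrict_iff' measurableSet_Icc]
    have hn0 : ∀ᵐ x : ℝ, x ≠ 0 := by simp [ae_iff, measure_singleton]
    have hn1 : ∀ᵐ x : ℝ, x ≠ 1 := by simp [ae_iff, measure_singleton]
    filter_upwards [hae, hn0, hn1] with x hx hx0 hx1 hxI
    have h4 := hx (by rwa [uIcc_of_le zero_le_one]) 0 (by simp)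
    have h5 : (fun x => ∫ t in (0 : ℝ)..x, (γ - η).2 t) =ᶠ[𝓝 x] fun _ => (0 : V) := by
      have : Ioo (0 : ℝ) 1 ∈ 𝓝 x := Ioo_mem_nhds (lt_of_le_of_ne hxI.1 (Ne.symm hx0))
        (lt_of_le_of_ne hxI.2 hx1)
      filter_upwards [this] with y hy
      exact hd y ⟨hy.1.le, hy.2.le⟩
    have h6 : HasDerivAt (fun x => ∫ t in (0 : ℝ)..x, (γ - η).2 t) 0 x :=
      (hasDerivAt_const x (0 : V)).congr_of_eventuallyEq h5
    exact h4.unique h6
  have h4 : (γ - η).2 = 0 := by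
    refine Lp.ext ?_
    exact h3.trans (Lp.coeFn_zero V 2 leb).symm
  have h5 : γ.2 = η.2 := by
    rw [← sub_eq_zero]
    exact h4
  exact Prod.ext h0 h5

/-! ### The action of continuous operator-valued functions -/

theorem memLp_act {A : ℝ → V →L[ℝ] W} (hA : ContinuousOn A (Icc 0 1)) (g : Lp V 2 leb) :
    MemLp (fun t => A t (g t)) 2 leb := by
  obtain ⟨K, hK⟩ := isCompact_Icc.exists_bound_of_continuousOn hA
  have hmeas : AEStronglyMeasurable (fun t => A t (g t)) leb := by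
    have h1 : AEStronglyMeasurable A leb := hA.aestronglyMeasurable measurableSet_Icc
    have h2 : AEStronglyMeasurable (fun t => (A t, g t)) leb := h1.prodMk (Lp.memLp g).1
    exact (isBoundedBilinearMap_apply (𝕜 := ℝ) (E := V) (F := W)).continuous.comp_aestronglyMeasurable
      h2
  refine MemLp.of_le_mul (c := K) (Lp.memLp g) hmeas ?_
  rw [ae_restrict_iff' measurableSet_Icc]
  refine Eventually.of_forall fun t ht => ?_
  exact ((A t).le_opNorm _).trans (mul_le_mul_of_nonneg_right (hK t ht) (norm_nonneg _))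

open Classical in
/-- The function `t ↦ A t (g t)`. -/
noncomputable def act (A : ℝ → V →L[ℝ] W) (g : Lp V 2 leb) : Lp W 2 leb :=
  if h : MemLp (fun t => A t (g t)) 2 leb then h.toLp _ else 0

theorem coeFn_act {A : ℝ → V →L[ℝ] W} (hA : ContinuousOn A (Icc 0 1)) (g : Lp V 2 leb) :
    act A g =ᵐ[leb] fun t => A t (g t) := by
  unfold act
  rw [dif_pos (memLp_act hA g)]
  exact MemLp.coeFn_toLp _

theorem norm_act_sub_le {A B : ℝ → V →L[ℝ] W} (hA : ContinuousOn A (Icc 0 1))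
    (hB : ContinuousOn B (Icc 0 1)) (g h : Lp V 2 leb) {ε K : ℝ}
    (hε : ∀ t ∈ Icc (0 : ℝ) 1, ‖A t - B t‖ ≤ ε) (hK : ∀ t ∈ Icc (0 : ℝ) 1, ‖B t‖ ≤ K) :
    ‖act A g - act B h‖ ≤ ε * ‖g‖ + K * ‖g - h‖ := by
  have h1 : ‖act A g - act B g‖ ≤ ε * ‖g‖ := by
    refine Lp.norm_le_mul_norm_of_ae_le_mul ?_
    have hI : ∀ᵐ t ∂leb, t ∈ Icc (0 : ℝ) 1 := ae_restrict_mem measurableSet_Icc
    filter_upwards [coeFn_act hA g, coeFn_act hB g, Lp.coeFn_sub (act A g) (act B g), hI]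
      with t h1 h2 h3 ht
    rw [h3, Pi.sub_apply, h1, h2, ← sub_apply]
    exact ((A t - B t).le_opNorm _).trans (mul_le_mul_of_nonneg_right (hε t ht) (norm_nonneg _))
  have h2 : ‖act B g - act B h‖ ≤ K * ‖g - h‖ := by
    refine Lp.norm_le_mul_norm_of_ae_le_mul ?_
    have hI : ∀ᵐ t ∂leb, t ∈ Icc (0 : ℝ) 1 := ae_restrict_mem measurableSet_Icc
    filter_upwards [coeFn_act hB g, coeFn_act hB h, Lp.coeFn_sub (act B g) (act B h),
      Lp.coeFn_sub g h, hI] with t h1 h2 h3 h4 ht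
    rw [h3, h4, Pi.sub_apply, Pi.sub_apply, h1, h2, ← map_sub]
    exact ((B t).le_opNorm _).trans (mul_le_mul_of_nonneg_right (hK t ht) (norm_nonneg _))
  calc ‖act A g - act B h‖ = ‖(act A g - act B g) + (act B g - act B h)‖ := by
        congr 1; abel
    _ ≤ ‖act A g - act B g‖ + ‖act B g - act B h‖ := norm_add_le _ _
    _ ≤ ε * ‖g‖ + K * ‖g - h‖ := add_le_add h1 h2

theorem path_mk_act {A : ℝ → V →L[ℝ] W} (hA : ContinuousOn A (Icc 0 1)) (x : W)
    (g : Lp V 2 leb) {t : ℝ} (ht : t ∈ Icc (0 : ℝ) 1) :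
    path ((x, act A g) : H1 W) t = x + ∫ s in (0 : ℝ)..t, A s (g s) := by
  unfold path
  rw [integral_congr_leb (coeFn_act hA g) zero_mem_I ht]

/-! ### Superposition operators -/

/-- The set of `H¹` paths in an open set. -/
def pathsIn (Ω : Set V) : Set (H1 V) := {γ : H1 V | ∀ t ∈ Icc (0 : ℝ) 1, path γ t ∈ Ω}

/-- The path `t ↦ Ψ (γ t)`. -/
noncomputable def comp (Ψ : V → W) (γ : H1 V) : H1 W :=
  (Ψ γ.1, act (fun t => fderiv ℝ Ψ (path γ t)) γ.2)

theorem isCompact_image_path (γ : H1 V) : IsCompact (path γ '' Icc 0 1) :=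
  isCompact_Icc.image_of_continuousOn (continuousOn_path γ)

theorem fderiv_continuousOn {Ω : Set V} (hΩ : IsOpen Ω) {Ψ : V → W} (hΨ : ContDiffOn ℝ 1 Ψ Ω) :
    ContinuousOn (fderiv ℝ Ψ) Ω :=
  hΨ.continuousOn_fderiv_of_isOpen hΩ le_rfl

theorem continuousOn_fderiv_path {Ω : Set V} (hΩ : IsOpen Ω) {Ψ : V → W}
    (hΨ : ContDiffOn ℝ 1 Ψ Ω) {γ : H1 V} (hγ : γ ∈ pathsIn Ω) :
    ContinuousOn (fun t => fderiv ℝ Ψ (path γ t)) (Icc 0 1) :=
  (fderiv_continuousOn hΩ hΨ).comp (continuousOn_path γ) hγ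

theorem isOpen_pathsIn {Ω : Set V} (hΩ : IsOpen Ω) : IsOpen (pathsIn Ω) := by
  rw [Metric.isOpen_iff]
  intro γ hγ
  have hsub : path γ '' Icc 0 1 ⊆ Ω := by
    rintro _ ⟨t, ht, rfl⟩
    exact hγ t ht
  obtain ⟨δ, hδ, hδΩ⟩ := (isCompact_image_path γ).exists_thickening_subset_open hΩ hsub
  refine ⟨δ / 2, by positivity, fun η hη t ht => hδΩ ?_⟩
  rw [Metric.mem_thickening_iff]
  refine ⟨path γ t, ⟨t, ht, rfl⟩, ?_⟩
  rw [dist_eq_norm]
  refine (norm_path_sub_le η γ ht).trans_lt ?_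
  rw [Metric.mem_ball, dist_eq_norm] at hη
  linarith

theorem continuousOn_comp {Ω : Set V} (hΩ : IsOpen Ω) {Ψ : V → W} (hΨ : ContDiffOn ℝ 1 Ψ Ω) :
    ContinuousOn (comp Ψ) (pathsIn Ω) := by
  intro γ hγ
  refine ContinuousAt.continuousWithinAt ?_
  have hγ0 : γ.1 ∈ Ω := by
    have := hγ 0 zero_mem_I
    rwa [path_zero] at this
  have h1 : ContinuousAt (fun η : H1 V => Ψ η.1) γ :=
    (hΨ.continuousOn.continuousAt (hΩ.mem_nhds hγ0)).comp continuousAt_fst
  refine ContinuousAt.prodMk h1 ?_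
  -- the derivative part
  have hAγ := continuousOn_fderiv_path hΩ hΨ hγ
  obtain ⟨K, hK⟩ := isCompact_Icc.exists_bound_of_continuousOn hAγ
  have hK0 : 0 ≤ K := (norm_nonneg _).trans (hK 0 zero_mem_I)
  have huc : ∀ ε > 0, ∃ δ > 0, ∀ x ∈ path γ '' Icc 0 1, ∀ y, dist x y < δ →
      dist (fderiv ℝ Ψ x) (fderiv ℝ Ψ y) < ε := by
    intro ε hε
    have h := (isCompact_image_path γ).uniformContinuousAt_of_continuousAt (fderiv ℝ Ψ)
      (r := {p | dist p.1 p.2 < ε}) (by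
        rintro _ ⟨t, ht, rfl⟩
        exact (fderiv_continuousOn hΩ hΨ).continuousAt (hΩ.mem_nhds (hγ t ht)))
      (Metric.dist_mem_uniformity hε)
    obtain ⟨δ, hδ, H⟩ := Metric.mem_uniformity_dist.1 h
    exact ⟨δ, hδ, fun x hx y hxy => H hxy hx⟩
  rw [Metric.continuousAt_iff]
  intro ε hε
  set G := ‖γ.2‖ + 1 with hG
  have hGpos : 0 < G := by positivity
  obtain ⟨δ, hδ, hδε⟩ := huc (ε / (2 * G)) (by positivity)
  obtain ⟨δ', hδ', hball⟩ := Metric.isOpen_iff.1 (isOpen_pathsIn hΩ) γ hγ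
  refine ⟨min (min (δ / 2) δ') (min 1 (ε / (2 * (K + 1)))), by positivity, fun {η} hη => ?_⟩
  have hη1 : dist η γ < δ / 2 := hη.trans_le ((min_le_left _ _).trans (min_le_left _ _))
  have hη2 : dist η γ < δ' := hη.trans_le ((min_le_left _ _).trans (min_le_right _ _))
  have hη3 : dist η γ < 1 := hη.trans_le ((min_le_right _ _).trans (min_le_left _ _))
  have hη4 : dist η γ < ε / (2 * (K + 1)) :=
    hη.trans_le ((min_le_right _ _).trans (min_le_right _ _))
  have hηΩ : η ∈ pathsIn Ω := hball hη2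
  have hAη := continuousOn_fderiv_path hΩ hΨ hηΩ
  have hsnd : ‖η.2 - γ.2‖ ≤ dist η γ := by
    rw [dist_eq_norm]
    exact norm_snd_le (η - γ)
  have hηG : ‖η.2‖ ≤ G := by
    have := norm_le_norm_add_norm_sub' η.2 γ.2
    rw [hG]
    linarith
  have h2 := norm_act_sub_le hAη hAγ η.2 γ.2 (ε := ε / (2 * G)) (K := K) (fun t ht => by
    have h3 : dist (path γ t) (path η t) < δ := by
      rw [dist_comm, dist_eq_norm]
      refine (norm_path_sub_le η γ ht).trans_lt ?_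
      rw [← dist_eq_norm]
      linarith
    have h4 := hδε _ ⟨t, ht, rfl⟩ _ h3
    rw [dist_comm, dist_eq_norm] at h4
    exact h4.le) hK
  rw [dist_eq_norm]
  refine h2.trans_lt ?_
  have h5 : ε / (2 * G) * ‖η.2‖ ≤ ε / 2 := by
    calc ε / (2 * G) * ‖η.2‖ ≤ ε / (2 * G) * G := by
          apply mul_le_mul_of_nonneg_left hηG (by positivity)
      _ = ε / 2 := by field_simp
  have h6 : K * ‖η.2 - γ.2‖ < ε / 2 := by
    calc K * ‖η.2 - γ.2‖ ≤ (K + 1) * ‖η.2 - γ.2‖ := by nlinarith [norm_nonneg (η.2 - γ.2)]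
      _ < (K + 1) * (ε / (2 * (K + 1))) := by
          apply mul_lt_mul_of_pos_left (hsnd.trans_lt hη4) (by positivity)
      _ = ε / 2 := by field_simp
  linarith

theorem memLp_of_continuous {g : ℝ → V} (hg : Continuous g) : MemLp g 2 leb := by
  obtain ⟨K, hK⟩ := (isCompact_Icc (a := (0 : ℝ)) (b := 1)).exists_bound_of_continuousOn
    hg.continuousOn
  refine MemLp.of_bound (hg.continuousOn.aestronglyMeasurable measurableSet_Icc) K ?_
  rw [ae_restrict_iff' measurableSet_Icc]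
  exact Eventually.of_forall fun t ht => hK t ht

/-- The path given by a continuous derivative. -/
noncomputable def ofDeriv (x : V) (g : ℝ → V) (hg : Continuous g) : H1 V :=
  (x, MemLp.toLp g (memLp_of_continuous hg))

theorem coeFn_ofDeriv (x : V) (g : ℝ → V) (hg : Continuous g) :
    (ofDeriv x g hg).2 =ᵐ[leb] g := MemLp.coeFn_toLp (memLp_of_continuous hg)

theorem path_ofDeriv (x : V) (g : ℝ → V) (hg : Continuous g) {t : ℝ}
    (ht : t ∈ Icc (0 : ℝ) 1) : path (ofDeriv x g hg) t = x + ∫ s in (0 : ℝ)..t, g s := by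
  unfold path
  rw [integral_congr_leb (coeFn_ofDeriv x g hg) zero_mem_I ht]
  rfl

theorem dense_ofDeriv : Dense {γ : H1 V | ∃ x g, ∃ hg : Continuous g, γ = ofDeriv x g hg} := by
  have hd : DenseRange (BoundedContinuousFunction.toLp 2 leb ℝ :
      (BoundedContinuousFunction ℝ V) →L[ℝ] Lp V 2 leb) :=
    BoundedContinuousFunction.toLp_denseRange V leb ℝ (by norm_num)
  have h2 : Dense ((univ : Set V) ×ˢ range (BoundedContinuousFunction.toLp 2 leb ℝ :
      (BoundedContinuousFunction ℝ V) →L[ℝ] Lp V 2 leb)) := dense_univ.prod hd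
  refine h2.mono ?_
  rintro ⟨x, _⟩ ⟨-, ⟨g, rfl⟩⟩
  refine ⟨x, g, g.continuous, ?_⟩
  refine Prod.ext rfl ?_
  refine Lp.ext ?_
  refine EventuallyEq.trans ?_ (coeFn_ofDeriv x g g.continuous).symm
  exact BoundedContinuousFunction.coeFn_toLp 2 leb ℝ g

theorem path_comp [CompleteSpace V] [CompleteSpace W] {Ω : Set V} (hΩ : IsOpen Ω) {Ψ : V → W}
    (hΨ : ContDiffOn ℝ 1 Ψ Ω) {γ : H1 V} (hγ : γ ∈ pathsIn Ω) {t : ℝ}
    (ht : t ∈ Icc (0 : ℝ) 1) : path (comp Ψ γ) t = Ψ (path γ t) := by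
  set D := {γ : H1 V | ∃ x g, ∃ hg : Continuous g, γ = ofDeriv x g hg} with hD
  have hne : (𝓝[D] γ).NeBot := mem_closure_iff_nhdsWithin_neBot.1 (dense_ofDeriv γ)
  have hnhds : pathsIn Ω ∈ 𝓝 γ := (isOpen_pathsIn hΩ).mem_nhds hγ
  have h1 : Tendsto (fun η => path (comp Ψ η) t) (𝓝[D] γ) (𝓝 (path (comp Ψ γ) t)) := by
    have : ContinuousAt (fun η => path (comp Ψ η) t) γ :=
      (continuous_path_apply ht).continuousAt.comp
        ((continuousOn_comp hΩ hΨ).continuousAt hnhds)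
    exact this.tendsto.mono_left nhdsWithin_le_nhds
  have h2 : Tendsto (fun η => Ψ (path η t)) (𝓝[D] γ) (𝓝 (Ψ (path γ t))) := by
    have : ContinuousAt (fun η => Ψ (path η t)) γ :=
      ContinuousAt.comp (f := fun η : H1 V => path η t)
        (hΨ.continuousOn.continuousAt (hΩ.mem_nhds (hγ t ht)))
        (continuous_path_apply ht).continuousAt
    exact this.tendsto.mono_left nhdsWithin_le_nhds
  refine tendsto_nhds_unique_of_eventuallyEq h1 h2 ?_
  filter_upwards [nhdsWithin_le_nhds hnhds, self_mem_nhdsWithin] with η hηΩ hηD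
  obtain ⟨x, g, hg, rfl⟩ := hηD
  unfold comp
  rw [path_mk_act (continuousOn_fderiv_path hΩ hΨ hηΩ) _ _ ht]
  have hp : ∀ s ∈ Icc (0 : ℝ) 1, path (ofDeriv x g hg) s = x + ∫ r in (0 : ℝ)..s, g r :=
    fun s hs => path_ofDeriv x g hg hs
  set c : ℝ → V := fun s => x + ∫ r in (0 : ℝ)..s, g r with hc
  have hcder : ∀ s, HasDerivAt c (g s) s := fun s =>
    (hg.integral_hasStrictDerivAt 0 s).hasDerivAt.const_add x
  have hcΩ : ∀ s ∈ Icc (0 : ℝ) 1, c s ∈ Ω := fun s hs => by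
    rw [hc]
    simp only
    rw [← hp s hs]
    exact hηΩ s hs
  have hder : ∀ s ∈ uIcc 0 t, HasDerivAt (fun s => Ψ (c s)) (fderiv ℝ Ψ (c s) (g s)) s := by
    intro s hs
    rw [uIcc_of_le ht.1] at hs
    have hsI : s ∈ Icc (0 : ℝ) 1 := ⟨hs.1, hs.2.trans ht.2⟩
    have hd : DifferentiableAt ℝ Ψ (c s) :=
      (hΨ.differentiableOn (by simp)).differentiableAt (hΩ.mem_nhds (hcΩ s hsI))
    exact hd.hasFDerivAt.comp_hasDerivAt s (hcder s)
  have hccont : Continuous c := continuous_iff_continuousAt.2 fun s => (hcder s).continuousAt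
  have hcontder : ContinuousOn (fun s => fderiv ℝ Ψ (c s) (g s)) (uIcc 0 t) := by
    rw [uIcc_of_le ht.1]
    have hsub : Icc 0 t ⊆ Icc (0 : ℝ) 1 := Icc_subset_Icc_right ht.2
    have h3 : ContinuousOn (fun s => fderiv ℝ Ψ (c s)) (Icc 0 t) :=
      (fderiv_continuousOn hΩ hΨ).comp hccont.continuousOn (fun s hs => hcΩ s (hsub hs))
    exact h3.clm_apply hg.continuousOn
  have hftc := intervalIntegral.integral_eq_sub_of_hasDerivAt hder hcontder.intervalIntegrable
  have h4 : ∫ s in (0 : ℝ)..t, fderiv ℝ Ψ (path (ofDeriv x g hg) s) ((ofDeriv x g hg).2 s)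
      = ∫ s in (0 : ℝ)..t, fderiv ℝ Ψ (c s) (g s) := by
    refine integral_congr_leb ?_ zero_mem_I ht
    have hI : ∀ᵐ t ∂leb, t ∈ Icc (0 : ℝ) 1 := ae_restrict_mem measurableSet_Icc
    filter_upwards [coeFn_ofDeriv x g hg, hI] with s h5 hs
    rw [h5, hp s hs]
  rw [h4, hftc, hp t ht]
  have h6 : c 0 = x := by simp [hc]
  rw [h6]
  have h7 : (ofDeriv x g hg).1 = x := rfl
  rw [h7]
  abel

/-! ### Linear maps, pairs, constants -/

/-- The path `t ↦ L (γ t)`. -/
noncomputable def map (L : V →L[ℝ] W) (γ : H1 V) : H1 W :=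
  (L γ.1, L.compLpL 2 leb γ.2)

theorem continuous_map (L : V →L[ℝ] W) : Continuous (map L) :=
  (L.continuous.comp continuous_fst).prodMk ((L.compLpL 2 leb).continuous.comp continuous_snd)

theorem path_map [CompleteSpace V] [CompleteSpace W] (L : V →L[ℝ] W) (γ : H1 V) {t : ℝ}
    (ht : t ∈ Icc (0 : ℝ) 1) : path (map L γ) t = L (path γ t) := by
  unfold path map
  rw [map_add, ← L.intervalIntegral_comp_comm
    (intervalIntegrable_of_integrable (integrable_of_Lp _) zero_mem_I ht)]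
  congr 1
  exact integral_congr_leb (L.coeFn_compLpL γ.2) zero_mem_I ht

/-- The path `t ↦ (γ t, η t)`. -/
noncomputable def pair (γ : H1 V) (η : H1 W) : H1 (V × W) :=
  map (ContinuousLinearMap.inl ℝ V W) γ + map (ContinuousLinearMap.inr ℝ V W) η

theorem path_pair [CompleteSpace V] [CompleteSpace W] (γ : H1 V) (η : H1 W) {t : ℝ}
    (ht : t ∈ Icc (0 : ℝ) 1) : path (pair γ η) t = (path γ t, path η t) := by
  unfold pair
  rw [path_add _ _ ht, path_map _ _ ht, path_map _ _ ht]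
  simp

theorem continuous_pair : Continuous (fun z : H1 V × H1 W => pair z.1 z.2) :=
  ((continuous_map _).comp continuous_fst).add ((continuous_map _).comp continuous_snd)

/-- The constant path. -/
noncomputable def const (x : V) : H1 V := (x, 0)

theorem path_const (x : V) {t : ℝ} (ht : t ∈ Icc (0 : ℝ) 1) : path (const x) t = x := by
  unfold path const
  rw [integral_congr_leb (Lp.coeFn_zero V 2 leb) zero_mem_I ht]
  simp

theorem continuous_const' : Continuous (const : V → H1 V) :=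
  continuous_id.prodMk continuous_const

/-- The identity path in `ℝ`. -/
noncomputable def idPath : H1 ℝ := ofDeriv 0 (fun _ => 1) continuous_const

theorem path_idPath {t : ℝ} (ht : t ∈ Icc (0 : ℝ) 1) : path idPath t = t := by
  unfold idPath
  rw [path_ofDeriv _ _ _ ht]
  simp

end Pool.Agent.Helper54.Taut
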