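import Mathlib
import Pool.Agent.Helper54.Taut.Kit

/-!
Local minimizers of the energy have Morse index `0`; more tools on `H¹([0,1], V)`.
-/

set_option autoImplicit false
set_option linter.unusedSectionVars false

open Set Filter MeasureTheory Module Topology
open scoped ContDiff RealInnerProductSpace Cardinal

namespace Pool.Agent.Helper54.Taut

section inner
variable {V : Type} [NormedAddCommGroup V] [InnerProductSpace ℝ V]

theorem energy_eq (γ : H1 V) : energy γ = ‖γ.2‖ ^ 2 := by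
  have h1 : ‖γ.2‖ ^ 2 = ⟪γ.2, γ.2⟫ := (real_inner_self_eq_norm_sq γ.2).symm
  rw [h1, L2.inner_def]
  unfold energy
  rw [intervalIntegral.integral_of_le zero_le_one, ← integral_Icc_eq_integral_Ioc]
  refine integral_congr_ae (Eventually.of_forall fun t => ?_)
  simp only [real_inner_self_eq_norm_sq]

theorem contDiff_energy : ContDiff ℝ ∞ (energy : H1 V → ℝ) := by
  have h : (energy : H1 V → ℝ) = fun γ => ‖γ.2‖ ^ 2 := funext energy_eq
  rw [h]
  exact contDiff_snd.norm_sq ℝ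

theorem not_hasNegativeVariation {N M : Set V} {p : V} {γ : H1 V}
    (h : ∀ᶠ η in 𝓝 γ, η ∈ PathSpace N M p → energy γ ≤ energy η) {k : ℕ} (hk : k ≠ 0) :
    ¬ HasNegativeVariation N M p γ k := by
  rintro ⟨Γ, hΓ, hΓ0, hP, hneg⟩
  obtain ⟨k, rfl⟩ := Nat.exists_eq_succ_of_ne_zero hk
  set u : EuclideanSpace ℝ (Fin (k + 1)) := EuclideanSpace.single 0 1 with hu
  have hu0 : u ≠ 0 := by
    intro h0
    have := congrArg (fun v : EuclideanSpace ℝ (Fin (k + 1)) => v 0) h0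
    simp [hu] at this
  have h2 := hneg u hu0
  set f : ℝ → ℝ := fun s => energy (Γ (s • u)) with hf
  have hlin : ContDiff ℝ ∞ (fun s : ℝ => s • u) := contDiff_id.smul contDiff_const
  have hfs : ContDiff ℝ ∞ f := contDiff_energy.comp (hΓ.comp hlin)
  have hlin0 : Tendsto (fun s : ℝ => s • u) (𝓝 0) (𝓝 0) := by
    have := hlin.continuous.tendsto 0
    rwa [zero_smul] at this
  have hΓc : Tendsto (fun s : ℝ => Γ (s • u)) (𝓝 0) (𝓝 γ) := by
    have := hΓ.continuous.tendsto 0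
    rw [hΓ0] at this
    exact this.comp hlin0
  have hmin : IsLocalMin f 0 := by
    have h3 := hΓc.eventually h
    have h4 := hlin0.eventually hP
    filter_upwards [h3, h4] with s hs1 hs2
    have := hs1 hs2
    simpa [hf, hΓ0] using this
  have hd0 : deriv f 0 = 0 := hmin.deriv_eq_zero
  have h2' : deriv (deriv f) 0 < 0 := by
    rwa [iteratedDeriv_succ, iteratedDeriv_one] at h2
  have hmax := isLocalMax_of_deriv_deriv_neg h2' hd0 hfs.continuous.continuousAt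
  have hconst : f =ᶠ[𝓝 0] fun _ => f 0 := by
    filter_upwards [hmin, hmax] with s hs1 hs2
    exact le_antisymm hs2 hs1
  have hd1 : deriv f =ᶠ[𝓝 0] fun _ => 0 := by
    have := hconst.deriv
    refine this.trans (Eventually.of_forall fun s => ?_)
    simp
  have hd2 : deriv (deriv f) 0 = 0 := by
    rw [hd1.deriv_eq]
    simp
  rw [hd2] at h2'
  exact lt_irrefl _ h2'

theorem morseIndex_eq_zero {N M : Set V} {p : V} {γ : H1 V}
    (h : ∀ᶠ η in 𝓝 γ, η ∈ PathSpace N M p → energy γ ≤ energy η) :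
    morseIndex N M p γ = ((0 : ℕ) : ℕ∞) := by
  unfold morseIndex
  refine le_antisymm ?_ (by simp)
  refine iSup₂_le fun k hk => ?_
  by_cases hk0 : k = 0
  · rw [hk0]
  · exact absurd hk (not_hasNegativeVariation h hk0)

end inner

/-! ### More on superposition -/

section more
variable {V : Type} [NormedAddCommGroup V] [NormedSpace ℝ V] [CompleteSpace V]
variable {W : Type} [NormedAddCommGroup W] [NormedSpace ℝ W] [CompleteSpace W]

theorem coeFn_comp {Ω : Set V} (hΩ : IsOpen Ω) {Ψ : V → W} (hΨ : ContDiffOn ℝ 1 Ψ Ω)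
    {γ : H1 V} (hγ : γ ∈ pathsIn Ω) :
    (comp Ψ γ).2 =ᵐ[leb] fun t => fderiv ℝ Ψ (path γ t) (γ.2 t) :=
  coeFn_act (continuousOn_fderiv_path hΩ hΨ hγ) γ.2

theorem ae_fderiv_eq_zero {Ω : Set V} (hΩ : IsOpen Ω) {Ψ : V → W} (hΨ : ContDiffOn ℝ 1 Ψ Ω)
    {γ : H1 V} (hγ : γ ∈ pathsIn Ω) {w : W} (hw : ∀ t ∈ Icc (0 : ℝ) 1, Ψ (path γ t) = w) :
    ∀ᵐ t ∂leb, fderiv ℝ Ψ (path γ t) (γ.2 t) = 0 := by
  have h1 : comp Ψ γ = const w := by
    refine path_injective fun t ht => ?_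
    rw [path_comp hΩ hΨ hγ ht, path_const w ht, hw t ht]
  have h2 := coeFn_comp hΩ hΨ hγ
  rw [h1] at h2
  have h3 : ((const w : H1 W).2 : ℝ → W) =ᵐ[leb] 0 := Lp.coeFn_zero W 2 leb
  filter_upwards [h2, h3] with t h4 h5
  rw [← h4, h5]
  rfl

theorem const_of_ae_fderiv_eq_zero {Ω : Set V} (hΩ : IsOpen Ω) {Ψ : V → W}
    (hΨ : ContDiffOn ℝ 1 Ψ Ω) {γ : H1 V} (hγ : γ ∈ pathsIn Ω)
    (h : ∀ᵐ t ∂leb, fderiv ℝ Ψ (path γ t) (γ.2 t) = 0) {s t : ℝ} (hs : s ∈ Icc (0 : ℝ) 1)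
    (ht : t ∈ Icc (0 : ℝ) 1) : Ψ (path γ s) = Ψ (path γ t) := by
  have h2 : (comp Ψ γ).2 =ᵐ[leb] fun _ => (0 : W) := (coeFn_comp hΩ hΨ hγ).trans h
  rw [← path_comp hΩ hΨ hγ hs, ← path_comp hΩ hΨ hγ ht]
  unfold path
  rw [integral_congr_leb h2 zero_mem_I hs, integral_congr_leb h2 zero_mem_I ht]
  simp

/-- The `H¹` path given by a `C¹` curve. -/
noncomputable def ofCurve (c : ℝ → V) (hc : ContDiff ℝ 1 c) : H1 V :=
  ofDeriv (c 0) (deriv c) (hc.continuous_deriv le_rfl)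

theorem path_ofCurve (c : ℝ → V) (hc : ContDiff ℝ 1 c) {t : ℝ} (ht : t ∈ Icc (0 : ℝ) 1) :
    path (ofCurve c hc) t = c t := by
  unfold ofCurve
  rw [path_ofDeriv _ _ _ ht, intervalIntegral.integral_deriv_eq_sub
    (fun x _ => (hc.differentiable (by simp)).differentiableAt)
    ((hc.continuous_deriv le_rfl).intervalIntegrable _ _)]
  abel

theorem coeFn_ofCurve (c : ℝ → V) (hc : ContDiff ℝ 1 c) :
    (ofCurve c hc).2 =ᵐ[leb] deriv c := coeFn_ofDeriv _ _ _

theorem energy_ofCurve (c : ℝ → V) (hc : ContDiff ℝ 1 c) {e : ℝ}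
    (he : ∀ t, ‖deriv c t‖ ^ 2 = e) : energy (ofCurve c hc) = e := by
  have h1 : (fun t => ‖(ofCurve c hc).2 t‖ ^ 2) =ᵐ[leb] fun _ => e := by
    filter_upwards [coeFn_ofCurve c hc] with t ht
    rw [ht, he t]
  unfold energy
  rw [integral_congr_leb h1 zero_mem_I one_mem_I]
  simp

end more

end Pool.Agent.Helper54.Taut
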