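import Mathlib
import Pool.Agent.Helper54.Taut.Index
import Pool.Agent.Helper54.Taut.Example

/-!
Tangent vectors of the manifolds of the example; curves of the form
`t ↦ cos (om t) x + sin (om t) n`.
-/

set_option autoImplicit false
set_option linter.unusedSectionVars false

open Set Filter MeasureTheory Module Topology
open scoped ContDiff RealInnerProductSpace Cardinal

namespace Pool.Agent.Helper54.Taut

section general
variable {V : Type} [NormedAddCommGroup V] [InnerProductSpace ℝ V]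
variable {W : Type} [NormedAddCommGroup W] [NormedSpace ℝ W]

theorem IsTangent.map_eq_zero {N : Set V} {x v : V} (h : IsTangent N x v) {Ψ : V → W} {w : W}
    {L : V →L[ℝ] W} (hΨ : HasFDerivAt Ψ L x) (hw : ∀ y ∈ N, Ψ y = w) : L v = 0 := by
  obtain ⟨c, hc, hc0, hcN, hcv⟩ := h
  have h1 : HasDerivAt c v 0 := by
    rw [← hcv]
    exact ((hc.differentiable (by simp)).differentiableAt).hasDerivAt
  have h2 : HasDerivAt (fun s => Ψ (c s)) (L v) 0 := by
    rw [← hc0] at hΨ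
    exact hΨ.comp_hasDerivAt 0 h1
  have h3 : (fun s => Ψ (c s)) =ᶠ[𝓝 0] fun _ => w := hcN.mono fun s hs => hw _ hs
  exact h2.unique ((hasDerivAt_const 0 w).congr_of_eventuallyEq h3)

/-- the curve `t ↦ cos (om t) x + sin (om t) n` -/
noncomputable def gc (om : ℝ) (x n : V) (t : ℝ) : V := Real.cos (om * t) • x + Real.sin (om * t) • n

theorem contDiff_gc (om : ℝ) (x n : V) {k : ℕ∞ω} : ContDiff ℝ k (gc om x n) := by
  unfold gc
  have h : ContDiff ℝ k (fun t : ℝ => om * t) := contDiff_const.mul contDiff_id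
  exact ((Real.contDiff_cos.comp h).smul contDiff_const).add
    ((Real.contDiff_sin.comp h).smul contDiff_const)

theorem hasDerivAt_gc (om : ℝ) (x n : V) (t : ℝ) :
    HasDerivAt (gc om x n) (gc om (om • n) (-(om • x)) t) t := by
  unfold gc
  have h : HasDerivAt (fun t : ℝ => om * t) om t := by
    simpa using (hasDerivAt_id t).const_mul om
  have h1 := (h.cos.smul_const x).add (h.sin.smul_const n)
  refine h1.congr_deriv ?_
  module

theorem deriv_gc (om : ℝ) (x n : V) : deriv (gc om x n) = gc om (om • n) (-(om • x)) :=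
  funext fun t => (hasDerivAt_gc om x n t).deriv

theorem deriv_deriv_gc (om : ℝ) (x n : V) (t : ℝ) :
    deriv (deriv (gc om x n)) t = -(om ^ 2) • gc om x n t := by
  rw [deriv_gc, deriv_gc]
  unfold gc
  module

theorem norm_gc_sq (om : ℝ) (x n : V) {r : ℝ} (hx : ‖x‖ ^ 2 = r) (hn : ‖n‖ ^ 2 = r)
    (hxn : ⟪x, n⟫ = 0) (t : ℝ) : ‖gc om x n t‖ ^ 2 = r := by
  unfold gc
  rw [norm_add_sq_real, norm_smul, norm_smul, inner_smul_left, inner_smul_right, hxn, mul_pow,
    mul_pow, hx, hn, Real.norm_eq_abs, Real.norm_eq_abs, sq_abs, sq_abs]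
  have := Real.cos_sq_add_sin_sq (om * t)
  simp only [mul_zero, add_zero]
  rw [← add_mul, this, one_mul]

end general

theorem hasFDerivAt_fst_sq (y : V6) :
    HasFDerivAt (fun y : V6 => ‖y.fst‖ ^ 2)
      (2 • (innerSL ℝ y.fst).comp (WithLp.fstL 2 ℝ E3 E3)) y :=
  ((WithLp.fstL 2 ℝ E3 E3).hasFDerivAt (x := y)).norm_sq

theorem hasFDerivAt_snd_sq (y : V6) :
    HasFDerivAt (fun y : V6 => ‖y.snd‖ ^ 2)
      (2 • (innerSL ℝ y.snd).comp (WithLp.sndL 2 ℝ E3 E3)) y :=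
  ((WithLp.sndL 2 ℝ E3 E3).hasFDerivAt (x := y)).norm_sq

theorem tangent_fst {N : Set V6} {y v : V6} (hN : ∀ y ∈ N, ‖y.fst‖ = 1) (h : IsTangent N y v) :
    ⟪y.fst, v.fst⟫ = 0 := by
  have := h.map_eq_zero (hasFDerivAt_fst_sq y) (w := 1) (fun z hz => by rw [hN z hz]; norm_num)
  simpa using this

theorem tangent_snd {N : Set V6} {y v : V6} (hN : ∀ y ∈ N, ‖y.snd‖ = 1) (h : IsTangent N y v) :
    ⟪y.snd, v.snd⟫ = 0 := by
  have := h.map_eq_zero (hasFDerivAt_snd_sq y) (w := 1) (fun z hz => by rw [hN z hz]; norm_num)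
  simpa using this

theorem tangent_NN0 {y v : V6} (h : IsTangent NN0 y v) :
    ⟪y.fst, v.fst⟫ = 0 ∧ ⟪y.snd, v.snd⟫ = 0 :=
  ⟨tangent_fst (fun _ hz => hz.1) h, tangent_snd (fun _ hz => hz.2) h⟩

theorem tangent_NN1 {y v : V6} (h : IsTangent NN1 y v) :
    ⟪y.fst, v.fst⟫ = 0 ∧ ⟪y.snd, v.snd⟫ = 0 :=
  ⟨tangent_fst (fun _ hz => hz.1.1) h, tangent_snd (fun _ hz => hz.2.1) h⟩

theorem tangent_MM {y v : V6} (h : IsTangent MM y v) :
    ⟪y.fst, v.fst⟫ = 0 ∧ v.fst 2 = 0 ∧ v.fst = v.snd := by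
  refine ⟨tangent_fst (fun _ hz => hz.1.1) h, ?_, ?_⟩
  · have := h.map_eq_zero ((EuclideanSpace.proj 2 : E3 →L[ℝ] ℝ).comp
      (WithLp.fstL 2 ℝ E3 E3)).hasFDerivAt (w := 0) (fun z hz => hz.1.2)
    simpa using this
  · have := h.map_eq_zero (WithLp.fstL 2 ℝ E3 E3 - WithLp.sndL 2 ℝ E3 E3).hasFDerivAt (w := 0)
      (fun z hz => sub_eq_zero.2 hz.2)
    exact sub_eq_zero.1 this

end Pool.Agent.Helper54.Taut
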