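import Mathlib
import Pool.Agent.Helper54.Taut.Index
import Pool.Agent.Helper54.Taut.Tangent

/-!
Two critical points of index `0` in `P(N₀, M × p)`.
-/

set_option autoImplicit false
set_option linter.unusedSectionVars false

open Set Filter MeasureTheory Module Topology
open scoped ContDiff RealInnerProductSpace Cardinal

namespace Pool.Agent.Helper54.Taut

section general
variable {V : Type} [NormedAddCommGroup V] [InnerProductSpace ℝ V] [CompleteSpace V]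
variable {W : Type} [NormedAddCommGroup W] [InnerProductSpace ℝ W] [CompleteSpace W]

theorem coeFn_map (L : V →L[ℝ] W) (γ : H1 V) :
    (map L γ).2 =ᵐ[leb] fun t => L (γ.2 t) := L.coeFn_compLpL γ.2

/-- velocity of a curve in a sphere is orthogonal to the position -/
theorem ae_inner_eq_zero {a : H1 V} {r : ℝ} (ha : ∀ t ∈ Icc (0 : ℝ) 1, ‖path a t‖ = r) :
    ∀ᵐ t ∂leb, ⟪path a t, a.2 t⟫ = 0 := by
  have h : ∀ᵐ t ∂leb, fderiv ℝ (fun y : V => ‖y‖ ^ 2) (path a t) (a.2 t) = 0 := by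
    refine ae_fderiv_eq_zero (Ω := univ) isOpen_univ (w := r ^ 2) ?_ (fun _ _ => mem_univ _) ?_
    · exact (contDiff_id.norm_sq ℝ).contDiffOn
    · intro t ht
      simp only [ha t ht]
  filter_upwards [h] with t ht
  have h2 : HasFDerivAt (fun y : V => ‖y‖ ^ 2) _ (path a t) := (hasFDerivAt_id (path a t)).norm_sq
  rw [h2.fderiv] at ht
  simp at ht
  exact ht

theorem sq_bound {q y v : V} (hq : ‖q‖ = 1) (hy : ‖y‖ = 1) (hyv : ⟪y, v⟫ = 0) {l : ℝ}
    (hl0 : 0 ≤ l) (hl1 : l ≤ 1) : (l * ⟪q, v⟫) ^ 2 ≤ ‖v‖ ^ 2 * (1 - (l * ⟪q, y⟫) ^ 2) := by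
  set s := ⟪q, y⟫ with hs
  have h1 : ⟪q, v⟫ = ⟪q - s • y, v⟫ := by
    rw [inner_sub_left, inner_smul_left, hyv]
    simp
  have h2 : ‖q - s • y‖ ^ 2 = 1 - s ^ 2 := by
    rw [norm_sub_sq_real, inner_smul_right, norm_smul, hq, hy, ← hs, Real.norm_eq_abs]
    nlinarith [sq_abs s]
  have h3 : ⟪q, v⟫ ^ 2 ≤ (1 - s ^ 2) * ‖v‖ ^ 2 := by
    rw [h1, ← h2]
    have := abs_real_inner_le_norm (q - s • y) v
    calc ⟪q - s • y, v⟫ ^ 2 = |⟪q - s • y, v⟫| ^ 2 := (sq_abs _).symm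
      _ ≤ (‖q - s • y‖ * ‖v‖) ^ 2 := by
          exact pow_le_pow_left₀ (abs_nonneg _) this 2
      _ = ‖q - s • y‖ ^ 2 * ‖v‖ ^ 2 := by ring
  have h4 : l ^ 2 ≤ 1 := by nlinarith
  have h5 : 0 ≤ ‖v‖ ^ 2 := by positivity
  nlinarith [mul_le_mul_of_nonneg_left h3 (sq_nonneg l), mul_nonneg h5 (sub_nonneg.2 h4)]

/-- the distance on the sphere is at most the `L²` norm of the velocity -/
theorem arccos_le_norm_aux {a : H1 V} (ha : ∀ t ∈ Icc (0 : ℝ) 1, ‖path a t‖ = 1) {l : ℝ}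
    (hl0 : 0 ≤ l) (hl1 : l < 1) :
    Real.arccos (l * ⟪path a 1, path a 0⟫) - Real.arccos l ≤ ‖a.2‖ := by
  set q := path a 1 with hq
  have hq1 : ‖q‖ = 1 := ha 1 one_mem_I
  set Ω : Set V := {y | l * ⟪q, y⟫ ∈ Ioo (-1 : ℝ) 1} with hΩ
  have hcont : Continuous (fun y : V => l * ⟪q, y⟫) := by fun_prop
  have hΩo : IsOpen Ω := isOpen_Ioo.preimage hcont
  set Ψ : V → ℝ := fun y => Real.arccos (l * ⟪q, y⟫) with hΨ
  have hsm : ContDiff ℝ 1 (fun y : V => l * ⟪q, y⟫) :=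
    contDiff_const.mul (contDiff_const.inner ℝ contDiff_id)
  have hΨd : ContDiffOn ℝ 1 Ψ Ω := by
    intro y hy
    have h1 : ContDiffAt ℝ 1 Real.arccos (l * ⟪q, y⟫) :=
      Real.contDiffAt_arccos (ne_of_gt hy.1) (ne_of_lt hy.2)
    exact (h1.comp y hsm.contDiffAt).contDiffWithinAt
  have habs : ∀ t ∈ Icc (0 : ℝ) 1, |l * ⟪q, path a t⟫| < 1 := by
    intro t ht
    rw [abs_mul, abs_of_nonneg hl0]
    have h1 : |⟪q, path a t⟫| ≤ 1 := by
      have := abs_real_inner_le_norm q (path a t)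
      rwa [hq1, ha t ht, one_mul] at this
    nlinarith [abs_nonneg ⟪q, path a t⟫]
  have hγ : a ∈ pathsIn Ω := fun t ht => abs_lt.1 (habs t ht)
  have h2 := coeFn_comp hΩo hΨd hγ
  have h3 : ‖(comp Ψ a).2‖ ≤ 1 * ‖a.2‖ := by
    refine Lp.norm_le_mul_norm_of_ae_le_mul ?_
    have hI : ∀ᵐ t ∂leb, t ∈ Icc (0 : ℝ) 1 := ae_restrict_mem measurableSet_Icc
    filter_upwards [h2, ae_inner_eq_zero ha, hI] with t h4 h5 ht
    rw [h4]
    have hy := hγ t ht
    have h6 : HasFDerivAt Ψ _ (path a t) :=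
      HasDerivAt.comp_hasFDerivAt (h₂ := Real.arccos) (f := fun y : V => l * ⟪q, y⟫) (path a t)
        (Real.hasDerivAt_arccos (ne_of_gt hy.1) (ne_of_lt hy.2))
        ((hsm.differentiable (by simp)).differentiableAt.hasFDerivAt)
    rw [h6.fderiv]
    have h7 : fderiv ℝ (fun y : V => l * ⟪q, y⟫) (path a t) (a.2 t) = l * ⟪q, a.2 t⟫ := by
      have h8 : HasFDerivAt (fun y : V => l * ⟪q, y⟫) (l • innerSL ℝ q) (path a t) := by
        have := (innerSL ℝ q).hasFDerivAt (x := path a t)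
        exact this.const_mul l
      rw [h8.fderiv]
      simp
    rw [smul_apply, h7, one_mul, smul_eq_mul, norm_mul, norm_neg, norm_div, norm_one]
    have hpos : 0 < 1 - (l * ⟪q, path a t⟫) ^ 2 := by
      have := habs t ht
      rw [← sq_abs]
      nlinarith [abs_nonneg (l * ⟪q, path a t⟫)]
    have hsq : 0 < √(1 - (l * ⟪q, path a t⟫) ^ 2) := Real.sqrt_pos.2 hpos
    rw [Real.norm_of_nonneg hsq.le, one_div, inv_mul_le_iff₀ hsq]
    have hb := sq_bound hq1 (ha t ht) h5 hl0 hl1.le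
    rw [Real.norm_eq_abs]
    refine abs_le_of_sq_le_sq ?_ (by positivity)
    have he : (√(1 - (l * ⟪q, path a t⟫) ^ 2) * ‖a.2 t‖) ^ 2 =
        ‖a.2 t‖ ^ 2 * (1 - (l * ⟪q, path a t⟫) ^ 2) := by
      rw [mul_pow, Real.sq_sqrt hpos.le, mul_comm]
    rw [he]
    exact hb
  rw [one_mul] at h3
  have h4 := norm_integral_le (comp Ψ a).2 one_mem_I
  have h5 : Ψ (path a 1) - Ψ (path a 0) = ∫ s in (0 : ℝ)..1, (comp Ψ a).2 s := by
    rw [← path_comp hΩo hΨd hγ one_mem_I, ← path_comp hΩo hΨd hγ zero_mem_I, path_zero]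
    unfold path
    abel
  rw [← h5, Real.norm_eq_abs] at h4
  have h6 : Ψ (path a 1) = Real.arccos l := by
    rw [hΨ]
    simp only
    rw [← hq, real_inner_self_eq_norm_sq, hq1]
    norm_num
  rw [h6] at h4
  have h7 := (abs_le.1 h4).1
  have h8 : Ψ (path a 0) = Real.arccos (l * ⟪q, path a 0⟫) := rfl
  linarith

theorem arccos_le_norm {a : H1 V} (ha : ∀ t ∈ Icc (0 : ℝ) 1, ‖path a t‖ = 1) :
    Real.arccos ⟪path a 1, path a 0⟫ ≤ ‖a.2‖ := by
  have hc : Continuous (fun l : ℝ => Real.arccos (l * ⟪path a 1, path a 0⟫) - Real.arccos l) :=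
    (Real.continuous_arccos.comp (continuous_id.mul continuous_const)).sub
      Real.continuous_arccos
  have h1 : Tendsto (fun l : ℝ => Real.arccos (l * ⟪path a 1, path a 0⟫) - Real.arccos l)
      (𝓝[<] 1) (𝓝 (Real.arccos (1 * ⟪path a 1, path a 0⟫) - Real.arccos 1)) :=
    (hc.tendsto 1).mono_left nhdsWithin_le_nhds
  have h2 : ∀ᶠ l in 𝓝[<] (1 : ℝ), Real.arccos (l * ⟪path a 1, path a 0⟫) - Real.arccos l ≤ ‖a.2‖ := by
    have h3 : Ioo (0 : ℝ) 1 ∈ 𝓝[<] (1 : ℝ) := Ioo_mem_nhdsLT zero_lt_one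
    filter_upwards [h3] with l hl
    exact arccos_le_norm_aux ha hl.1.le hl.2
  have h3 := le_of_tendsto h1 h2
  simpa using h3

end general

/-! ### The product of two copies of `ℝ³` -/

/-- first projection -/
noncomputable abbrev prF : V6 →L[ℝ] E3 := WithLp.fstL 2 ℝ E3 E3
/-- second projection -/
noncomputable abbrev prS : V6 →L[ℝ] E3 := WithLp.sndL 2 ℝ E3 E3

theorem energy_V6 (γ : H1 V6) :
    energy γ = ‖(map prF γ).2‖ ^ 2 + ‖(map prS γ).2‖ ^ 2 := by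
  rw [← energy_eq, ← energy_eq]
  unfold energy
  have hint : ∀ g : Lp E3 2 leb, IntervalIntegrable (fun t => ‖g t‖ ^ 2) volume 0 1 := by
    intro g
    have h : Integrable (fun t => ‖g t‖ ^ 2) leb := (Lp.memLp g).integrable_norm_pow (by norm_num)
    exact intervalIntegrable_of_integrable h zero_mem_I one_mem_I
  rw [← intervalIntegral.integral_add (hint _) (hint _)]
  refine integral_congr_leb ?_ zero_mem_I one_mem_I
  filter_upwards [coeFn_map prF γ, coeFn_map prS γ] with t h1 h2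
  rw [h1, h2, WithLp.prod_norm_sq_eq_of_L2]
  rfl

theorem path_prF (γ : H1 V6) {t : ℝ} (ht : t ∈ Icc (0 : ℝ) 1) :
    path (map prF γ) t = (path γ t).fst := path_map _ _ ht

theorem path_prS (γ : H1 V6) {t : ℝ} (ht : t ∈ Icc (0 : ℝ) 1) :
    path (map prS γ) t = (path γ t).snd := path_map _ _ ht

theorem inner_p1 (x : E3) : ⟪p1, x⟫ = 3 / 5 * x 0 + 4 / 5 * x 2 := by
  simp [p1, PiLp.inner_apply, Fin.sum_univ_three]
  ring

theorem inner_p2 (x : E3) : ⟪p2, x⟫ = -(3 / 5) * x 0 + 4 / 5 * x 2 := by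
  simp [p2, PiLp.inner_apply, Fin.sum_univ_three]
  ring

theorem energy_ge {γ : H1 V6} (hγ : γ ∈ PathSpace NN0 MM pp) : Real.pi ^ 2 / 2 ≤ energy γ := by
  obtain ⟨h0, h1, hN⟩ := hγ
  obtain ⟨⟨hx, hx2⟩, hxx⟩ := h0
  have hA := arccos_le_norm (a := map prF γ) (fun t ht => by rw [path_prF γ ht]; exact (hN t ht).1)
  have hB := arccos_le_norm (a := map prS γ) (fun t ht => by rw [path_prS γ ht]; exact (hN t ht).2)
  rw [path_prF γ one_mem_I, path_prF γ zero_mem_I, h1] at hA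
  rw [path_prS γ one_mem_I, path_prS γ zero_mem_I, h1, ← hxx] at hB
  set x := (path γ 0).fst with hxdef
  have e1 : ⟪pp.fst, x⟫ = 3 / 5 * x 0 := by
    have := inner_p1 x
    rw [hx2] at this
    simpa [pp] using this
  have e2 : ⟪pp.snd, x⟫ = -(3 / 5 * x 0) := by
    have := inner_p2 x
    rw [hx2] at this
    simpa [pp] using this
  rw [e1] at hA
  rw [e2, Real.arccos_neg] at hB
  rw [energy_V6]
  have h3 := norm_nonneg (map prF γ).2
  have h4 := norm_nonneg (map prS γ).2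
  nlinarith [sq_nonneg (‖(map prF γ).2‖ - ‖(map prS γ).2‖), Real.pi_pos]

/-! ### The two critical points -/

/-- the starting points `(0, s, 0)`, doubled -/
noncomputable def xx (s : ℝ) : V6 := WithLp.toLp 2 (!₂[0, s, 0], !₂[0, s, 0])

theorem norm_p1 : ‖p1‖ = 1 := by
  rw [EuclideanSpace.norm_eq, Real.sqrt_eq_one]
  simp [p1, Fin.sum_univ_three]
  norm_num

theorem norm_p2 : ‖p2‖ = 1 := by
  rw [EuclideanSpace.norm_eq, Real.sqrt_eq_one]
  simp [p2, Fin.sum_univ_three]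
  norm_num

theorem norm_x0 {s : ℝ} (hs : s ^ 2 = 1) : ‖(!₂[0, s, 0] : E3)‖ = 1 := by
  rw [EuclideanSpace.norm_eq, Real.sqrt_eq_one]
  simp [Fin.sum_univ_three, hs]

theorem pp_mem : pp ∈ NN0 := ⟨norm_p1, norm_p2⟩

theorem fst_gc (om : ℝ) (x n : V6) (t : ℝ) : (gc om x n t).fst = gc om x.fst n.fst t := by
  simp [gc]

theorem snd_gc (om : ℝ) (x n : V6) (t : ℝ) : (gc om x n t).snd = gc om x.snd n.snd t := by
  simp [gc]

theorem norm_eq_one_of_sq {V : Type} [NormedAddCommGroup V] {x : V} (h : ‖x‖ ^ 2 = 1) :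
    ‖x‖ = 1 := by
  have := norm_nonneg x
  nlinarith

theorem gc_mem {s : ℝ} (hs : s ^ 2 = 1) (t : ℝ) : gc (Real.pi / 2) (xx s) pp t ∈ NN0 := by
  constructor
  · rw [fst_gc]
    apply norm_eq_one_of_sq
    refine norm_gc_sq _ _ _ ?_ ?_ ?_ _
    · simp [xx, norm_x0 hs]
    · simp [pp, norm_p1]
    · rw [real_inner_comm]
      simp [pp, xx, inner_p1]
  · rw [snd_gc]
    apply norm_eq_one_of_sq
    refine norm_gc_sq _ _ _ ?_ ?_ ?_ _
    · simp [xx, norm_x0 hs]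
    · simp [pp, norm_p2]
    · rw [real_inner_comm]
      simp [pp, xx, inner_p2]

theorem inner_V6 (x y : V6) : ⟪x, y⟫ = ⟪x.fst, y.fst⟫ + ⟪x.snd, y.snd⟫ := rfl

theorem geodesic_gc {s : ℝ} (hs : s ^ 2 = 1) : IsGeodesic NN0 (gc (Real.pi / 2) (xx s) pp) := by
  refine ⟨contDiff_gc _ _ _, gc_mem hs, fun t v hv => ?_⟩
  obtain ⟨h1, h2⟩ := tangent_NN0 hv
  rw [deriv_deriv_gc, inner_smul_left, inner_V6, h1, h2]
  simp

theorem gc_zero (om : ℝ) (x n : V6) : gc om x n 0 = x := by simp [gc]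

theorem gc_one (x n : V6) : gc (Real.pi / 2) x n 1 = n := by simp [gc]

theorem xx_mem {s : ℝ} (hs : s ^ 2 = 1) : xx s ∈ MM := by
  refine ⟨⟨?_, ?_⟩, rfl⟩
  · simp [xx, norm_x0 hs]
  · simp [xx]

theorem starts_gc {s : ℝ} (hs : s ^ 2 = 1) :
    StartsOrthogonally MM (gc (Real.pi / 2) (xx s) pp) := by
  refine ⟨by rw [gc_zero]; exact xx_mem hs, fun v hv => ?_⟩
  rw [gc_zero] at hv
  obtain ⟨h1, h2, h3⟩ := tangent_MM hv
  rw [deriv_gc, gc_zero, inner_smul_left, inner_V6, ← h3]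
  have h4 : ⟪pp.fst, v.fst⟫ = 3 / 5 * v.fst 0 + 4 / 5 * v.fst 2 := inner_p1 _
  have h5 : ⟪pp.snd, v.fst⟫ = -(3 / 5) * v.fst 0 + 4 / 5 * v.fst 2 := inner_p2 _
  rw [h4, h5, h2]
  simp

/-- the critical point -/
noncomputable def crit (s : ℝ) : H1 V6 :=
  ofCurve (gc (Real.pi / 2) (xx s) pp) (contDiff_gc _ _ _)

theorem path_crit (s : ℝ) {t : ℝ} (ht : t ∈ Icc (0 : ℝ) 1) :
    path (crit s) t = gc (Real.pi / 2) (xx s) pp t := path_ofCurve _ _ ht

theorem crit_mem {s : ℝ} (hs : s ^ 2 = 1) : crit s ∈ PathSpace NN0 MM pp := by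
  refine ⟨?_, ?_, fun t ht => ?_⟩
  · rw [path_crit s zero_mem_I, gc_zero]
    exact xx_mem hs
  · rw [path_crit s one_mem_I, gc_one]
  · rw [path_crit s ht]
    exact gc_mem hs t

theorem crit_isCritical {s : ℝ} (hs : s ^ 2 = 1) : IsCriticalPoint NN0 MM pp (crit s) :=
  ⟨crit_mem hs, _, geodesic_gc hs, starts_gc hs, fun _ ht => path_crit s ht⟩

theorem energy_crit {s : ℝ} (hs : s ^ 2 = 1) : energy (crit s) = Real.pi ^ 2 / 2 := by
  refine energy_ofCurve _ _ fun t => ?_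
  rw [deriv_gc]
  refine norm_gc_sq _ _ _ ?_ ?_ ?_ _
  · rw [norm_smul, mul_pow, WithLp.prod_norm_sq_eq_of_L2]
    have h1 : ‖pp.fst‖ = 1 := norm_p1
    have h2 : ‖pp.snd‖ = 1 := norm_p2
    rw [h1, h2, Real.norm_eq_abs, sq_abs]
    ring
  · rw [norm_neg, norm_smul, mul_pow, WithLp.prod_norm_sq_eq_of_L2]
    have h1 : ‖(xx s).fst‖ = 1 := norm_x0 hs
    have h2 : ‖(xx s).snd‖ = 1 := norm_x0 hs
    rw [h1, h2, Real.norm_eq_abs, sq_abs]
    ring
  · rw [inner_neg_right, inner_smul_left, inner_smul_right, inner_V6]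
    have h1 : ⟪pp.fst, (xx s).fst⟫ = 0 := by
      have := inner_p1 (xx s).fst
      simpa [pp, xx] using this
    have h2 : ⟪pp.snd, (xx s).snd⟫ = 0 := by
      have := inner_p2 (xx s).snd
      simpa [pp, xx] using this
    rw [h1, h2]
    simp

theorem index_crit {s : ℝ} (hs : s ^ 2 = 1) :
    morseIndex NN0 MM pp (crit s) = ((0 : ℕ) : ℕ∞) := by
  refine morseIndex_eq_zero (Eventually.of_forall fun η hη => ?_)
  rw [energy_crit hs]
  exact energy_ge hη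

theorem two_le : (2 : Cardinal) ≤ #{γ : H1 V6 //
    IsCriticalPoint NN0 MM pp γ ∧ morseIndex NN0 MM pp γ = ((0 : ℕ) : ℕ∞)} := by
  rw [Cardinal.two_le_iff]
  have h1 : (1 : ℝ) ^ 2 = 1 := by norm_num
  have h2 : (-1 : ℝ) ^ 2 = 1 := by norm_num
  refine ⟨⟨crit 1, crit_isCritical h1, index_crit h1⟩,
    ⟨crit (-1), crit_isCritical h2, index_crit h2⟩, fun h => ?_⟩
  have h3 : crit 1 = crit (-1) := congrArg Subtype.val h
  have h4 := congrArg (fun γ => path γ 0) h3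
  simp only [path_crit _ zero_mem_I, gc_zero] at h4
  have h5 := congrArg (fun y : V6 => y.fst 1) h4
  simp [xx] at h5
  norm_num at h5

end Pool.Agent.Helper54.Taut
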