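import Mathlib
import Pool.Agent.Helper54.Taut.TwoLe

/-!
Lifting `H¹` paths in the great circle `C` to `H¹` paths in `ℝ`.
-/

set_option autoImplicit false
set_option linter.unusedSectionVars false

open Set Filter MeasureTheory Module Topology
open scoped ContDiff RealInnerProductSpace Cardinal

namespace Pool.Agent.Helper54.Taut

section general
variable {V : Type} [NormedAddCommGroup V] [NormedSpace ℝ V] [CompleteSpace V]
variable {W : Type} [NormedAddCommGroup W] [NormedSpace ℝ W] [CompleteSpace W]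

theorem continuousOn_clm_path (T : V →L[ℝ] V →L[ℝ] W) (γ : H1 V) :
    ContinuousOn (fun t => T (path γ t)) (Icc 0 1) :=
  T.continuous.comp_continuousOn (continuousOn_path γ)

theorem continuous_act_clm (T : V →L[ℝ] V →L[ℝ] W) :
    Continuous (fun γ : H1 V => act (fun t => T (path γ t)) γ.2) := by
  rw [continuous_iff_continuousAt]
  intro γ
  rw [ContinuousAt, tendsto_iff_norm_sub_tendsto_zero]
  have hb : ∀ η : H1 V, ‖act (fun t => T (path η t)) η.2 - act (fun t => T (path γ t)) γ.2‖ ≤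
      ‖T‖ * (2 * ‖η - γ‖) * ‖η.2‖ + ‖T‖ * (2 * ‖γ‖) * ‖η.2 - γ.2‖ := by
    intro η
    refine norm_act_sub_le (continuousOn_clm_path T η) (continuousOn_clm_path T γ) _ _ ?_ ?_
    · intro t ht
      rw [← map_sub]
      exact (T.le_opNorm _).trans
        (mul_le_mul_of_nonneg_left (norm_path_sub_le η γ ht) (norm_nonneg _))
    · intro t ht
      exact (T.le_opNorm _).trans (mul_le_mul_of_nonneg_left (norm_path_le γ ht) (norm_nonneg _))
  refine squeeze_zero (fun η => norm_nonneg _) hb ?_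
  have hc : Continuous (fun η : H1 V => ‖T‖ * (2 * ‖η - γ‖) * ‖η.2‖ +
      ‖T‖ * (2 * ‖γ‖) * ‖η.2 - γ.2‖) := by fun_prop
  have := hc.tendsto γ
  simpa using this

end general

/-- rotation by a right angle about the third axis -/
noncomputable def J : E3 →L[ℝ] E3 :=
  LinearMap.toContinuousLinearMap
    { toFun := fun x => !₂[-x 1, x 0, 0]
      map_add' := fun x y => by
        ext i
        fin_cases i <;> simp
        ring
      map_smul' := fun c x => by
        ext i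
        fin_cases i <;> simp }

theorem J_apply (x : E3) : J x = !₂[-x 1, x 0, 0] := rfl

@[simp] theorem J_zero (x : E3) : J x 0 = -x 1 := rfl
@[simp] theorem J_one (x : E3) : J x 1 = x 0 := rfl
@[simp] theorem J_two (x : E3) : J x 2 = 0 := rfl

theorem inner_E3 (x y : E3) : ⟪x, y⟫ = x 0 * y 0 + x 1 * y 1 + x 2 * y 2 := by
  simp [PiLp.inner_apply, Fin.sum_univ_three]
  ring

theorem norm_sq_E3 (x : E3) : ‖x‖ ^ 2 = x 0 ^ 2 + x 1 ^ 2 + x 2 ^ 2 := by
  rw [← real_inner_self_eq_norm_sq, inner_E3]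
  ring

theorem inner_J_self (x : E3) : ⟪x, J x⟫ = 0 := by
  rw [inner_E3]
  simp
  ring

theorem inner_J_J {x : E3} (hx : ‖x‖ = 1) (hx2 : x 2 = 0) : ⟪J x, J x⟫ = 1 := by
  have h := norm_sq_E3 x
  rw [hx, hx2] at h
  rw [inner_E3]
  simp
  nlinarith

theorem decomp {x v : E3} (hx : ‖x‖ = 1) (hx2 : x 2 = 0) (hv2 : v 2 = 0) (hxv : ⟪x, v⟫ = 0) :
    v = ⟪J x, v⟫ • J x := by
  have h := norm_sq_E3 x
  rw [hx, hx2] at h
  rw [inner_E3, hx2] at hxv
  rw [inner_E3]
  ext i
  fin_cases i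
  · simp
    linear_combination (v 0) * h + (x 0) * hxv
  · simp
    linear_combination (v 1) * h + (x 1) * hxv
  · simp [hv2]

/-- the point of `C` at angle `u` -/
noncomputable def ee (u : ℝ) : E3 := !₂[Real.cos u, Real.sin u, 0]

theorem norm_ee (u : ℝ) : ‖ee u‖ = 1 := by
  apply norm_eq_one_of_sq
  rw [norm_sq_E3]
  simp [ee]

theorem ee_two (u : ℝ) : ee u 2 = 0 := rfl

theorem hasDerivAt_ee (u : ℝ) : HasDerivAt ee (J (ee u)) u := by
  have h1 : ee = fun u => Real.cos u • (!₂[1, 0, 0] : E3) + Real.sin u • (!₂[0, 1, 0] : E3) := by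
    funext u
    ext i
    fin_cases i <;> simp [ee]
  have h2 := ((Real.hasDerivAt_cos u).smul_const (!₂[1, 0, 0] : E3)).add
    ((Real.hasDerivAt_sin u).smul_const (!₂[0, 1, 0] : E3))
  rw [h1]
  refine h2.congr_deriv ?_
  ext i
  fin_cases i <;> simp [J_apply]

theorem contDiff_ee {n : ℕ∞ω} : ContDiff ℝ n ee := by
  have h1 : ee = fun u => Real.cos u • (!₂[1, 0, 0] : E3) + Real.sin u • (!₂[0, 1, 0] : E3) := by
    funext u
    ext i
    fin_cases i <;> simp [ee]
  rw [h1]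
  exact (Real.contDiff_cos.smul contDiff_const).add (Real.contDiff_sin.smul contDiff_const)

theorem fderiv_ee (u v : ℝ) : fderiv ℝ ee u v = v • J (ee u) := by
  rw [(hasDerivAt_ee u).hasFDerivAt.fderiv]
  simp

theorem exists_ee {x : E3} (hx : ‖x‖ = 1) (hx2 : x 2 = 0) : ∃ u, x = ee u := by
  have h := norm_sq_E3 x
  rw [hx, hx2] at h
  have h1 : ‖(⟨x 0, x 1⟩ : ℂ)‖ = 1 := by
    rw [Complex.norm_def, Real.sqrt_eq_one, Complex.normSq_mk]
    linarith
  refine ⟨Complex.arg ⟨x 0, x 1⟩, ?_⟩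
  have h0 : (⟨x 0, x 1⟩ : ℂ) ≠ 0 := by
    intro h0
    rw [h0] at h1
    simp at h1
  ext i
  fin_cases i
  · simp [ee, Complex.cos_arg h0, h1]
  · simp [ee, Complex.sin_arg, h1]
  · simp [ee, hx2]

theorem ee_eq_iff (u v : ℝ) : ee u = ee v ↔ ∃ n : ℤ, u - v = 2 * Real.pi * n := by
  rw [← Real.Angle.angle_eq_iff_two_pi_dvd_sub]
  constructor
  · intro h
    have h0 := congrArg (fun x : E3 => x 0) h
    have h1 := congrArg (fun x : E3 => x 1) h
    simp [ee] at h0 h1
    exact Real.Angle.cos_sin_inj h0 h1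
  · intro h
    have h0 : Real.cos u = Real.cos v := by
      rw [← Real.Angle.cos_coe, h, Real.Angle.cos_coe]
    have h1 : Real.sin u = Real.sin v := by
      rw [← Real.Angle.sin_coe, h, Real.Angle.sin_coe]
    simp [ee, h0, h1]

/-! ### The lift -/

/-- `x ↦ ⟪J x, ·⟫` -/
noncomputable def TT : E3 →L[ℝ] E3 →L[ℝ] ℝ := (innerSL ℝ).comp J

theorem TT_apply (x v : E3) : TT x v = ⟪J x, v⟫ := rfl

/-- the angular velocity -/
noncomputable def angv (a : H1 E3) : Lp ℝ 2 leb := act (fun t => TT (path a t)) a.2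

theorem continuous_angv : Continuous angv := continuous_act_clm TT

theorem coeFn_angv (a : H1 E3) : angv a =ᵐ[leb] fun t => ⟪J (path a t), a.2 t⟫ :=
  coeFn_act (continuousOn_clm_path TT a) a.2

/-- the lift that ends at `α` -/
noncomputable def lift (α : ℝ) (a : H1 E3) : H1 ℝ :=
  (α - path ((0, angv a) : H1 ℝ) 1, angv a)

theorem continuous_lift (α : ℝ) : Continuous (lift α) := by
  refine Continuous.prodMk ?_ continuous_angv
  exact continuous_const.sub ((continuous_path_apply one_mem_I).comp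
    (continuous_const.prodMk continuous_angv))

theorem path_lift_one (α : ℝ) (a : H1 E3) : path (lift α a) 1 = α := by
  unfold path lift path
  simp

theorem lift_snd (α : ℝ) (a : H1 E3) : (lift α a).2 = angv a := rfl

theorem contDiffOn_ee : ContDiffOn ℝ 1 ee univ := contDiff_ee.contDiffOn

theorem mem_pathsIn_univ {V : Type} [NormedAddCommGroup V] [NormedSpace ℝ V] (γ : H1 V) :
    γ ∈ pathsIn (univ : Set V) := fun _ _ => mem_univ _

theorem path_comp_ee (u : H1 ℝ) {t : ℝ} (ht : t ∈ Icc (0 : ℝ) 1) :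
    path (comp ee u) t = ee (path u t) :=
  path_comp isOpen_univ contDiffOn_ee (mem_pathsIn_univ u) ht

theorem coeFn_comp_ee (u : H1 ℝ) :
    (comp ee u).2 =ᵐ[leb] fun t => u.2 t • J (ee (path u t)) := by
  filter_upwards [coeFn_comp isOpen_univ contDiffOn_ee (mem_pathsIn_univ u)] with t ht
  rw [ht, fderiv_ee]

theorem continuous_comp_ee : Continuous (comp ee) := by
  have h := continuousOn_comp isOpen_univ contDiffOn_ee
  have h2 : pathsIn (univ : Set ℝ) = univ := eq_univ_of_forall mem_pathsIn_univ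
  rw [h2] at h
  exact continuousOn_univ.1 h

theorem lift_comp_ee {α : ℝ} {u : H1 ℝ} (hu : path u 1 = α) : lift α (comp ee u) = u := by
  have h1 : angv (comp ee u) = u.2 := by
    refine Lp.ext ?_
    have hI : ∀ᵐ t ∂leb, t ∈ Icc (0 : ℝ) 1 := ae_restrict_mem measurableSet_Icc
    filter_upwards [coeFn_angv (comp ee u), coeFn_comp_ee u, hI] with t h2 h3 ht
    rw [h2, h3, path_comp_ee u ht, inner_smul_right, inner_J_J (norm_ee _) (ee_two _), mul_one]
  refine Prod.ext ?_ h1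
  unfold lift
  simp only
  rw [h1, ← hu]
  unfold path
  simp

theorem ae_fst_two {a : H1 E3} (ha : ∀ t ∈ Icc (0 : ℝ) 1, path a t 2 = 0) :
    ∀ᵐ t ∂leb, a.2 t 2 = 0 := by
  have h := ae_fderiv_eq_zero (Ω := univ) (w := 0) isOpen_univ
    (EuclideanSpace.proj 2 : E3 →L[ℝ] ℝ).contDiff.contDiffOn (mem_pathsIn_univ a) ha
  filter_upwards [h] with t ht
  rw [ContinuousLinearMap.fderiv] at ht
  exact ht

theorem ae_eq_smul {a : H1 E3} (ha : ∀ t ∈ Icc (0 : ℝ) 1, ‖path a t‖ = 1 ∧ path a t 2 = 0) :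
    ∀ᵐ t ∂leb, a.2 t = angv a t • J (path a t) := by
  have hI : ∀ᵐ t ∂leb, t ∈ Icc (0 : ℝ) 1 := ae_restrict_mem measurableSet_Icc
  filter_upwards [coeFn_angv a, ae_fst_two (fun t ht => (ha t ht).2),
    ae_inner_eq_zero (fun t ht => (ha t ht).1), hI] with t h1 h2 h3 ht
  rw [h1]
  exact decomp (ha t ht).1 (ha t ht).2 h2 h3

theorem comp_ee_lift {α : ℝ} {a : H1 E3}
    (ha : ∀ t ∈ Icc (0 : ℝ) 1, ‖path a t‖ = 1 ∧ path a t 2 = 0) (ha1 : path a 1 = ee α) :
    comp ee (lift α a) = a := by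
  set u := lift α a with hu
  set d : H1 E3 := comp ee u - a with hd
  have hpath : ∀ t ∈ Icc (0 : ℝ) 1, path d t = ee (path u t) - path a t := by
    intro t ht
    rw [hd, path_sub _ _ ht, path_comp_ee u ht]
  have hI : ∀ᵐ t ∂leb, t ∈ Icc (0 : ℝ) 1 := ae_restrict_mem measurableSet_Icc
  have hae : ∀ᵐ t ∂leb, fderiv ℝ (fun y : E3 => ‖y‖ ^ 2) (path d t) (d.2 t) = 0 := by
    have hsub : d.2 =ᵐ[leb] (comp ee u).2 - a.2 := Lp.coeFn_sub _ _
    filter_upwards [hsub, coeFn_comp_ee u, ae_eq_smul ha, hI] with t h1 h2 h3 ht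
    have h4 : HasFDerivAt (fun y : E3 => ‖y‖ ^ 2) _ (path d t) :=
      (hasFDerivAt_id (path d t)).norm_sq
    rw [h4.fderiv, h1, Pi.sub_apply, h2, h3]
    have h5 : u.2 t = angv a t := rfl
    rw [h5, ← smul_sub, ← map_sub, ← hpath t ht]
    have h6 := inner_J_self (path d t)
    simp [h6]
  have hconst : ∀ t ∈ Icc (0 : ℝ) 1, ‖path d t‖ ^ 2 = ‖path d 1‖ ^ 2 := fun t ht =>
    const_of_ae_fderiv_eq_zero (Ω := univ) isOpen_univ (contDiff_id.norm_sq ℝ).contDiffOn
      (mem_pathsIn_univ d) hae ht one_mem_I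
  refine path_injective fun t ht => ?_
  have h1 := hconst t ht
  rw [hpath 1 one_mem_I, ha1, hu, path_lift_one, sub_self, norm_zero] at h1
  have h2 : path d t = 0 := by
    have : ‖path d t‖ = 0 := by
      have h3 := norm_nonneg (path d t)
      nlinarith
    exact norm_eq_zero.1 this
  rw [hpath t ht, sub_eq_zero] at h2
  rw [path_comp_ee u ht, h2]

end Pool.Agent.Helper54.Taut
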