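import Mathlib
import Pool.Agent.Helper54.Taut.Lift
import Pool.Agent.Helper85.TautC

/-!
The diagonal circle is taut in the flat torus `C × C`.
-/

set_option autoImplicit false
set_option linter.unusedSectionVars false

open Set Filter MeasureTheory Module Topology
open scoped ContDiff RealInnerProductSpace Cardinal

namespace Pool.Agent.Helper54.Taut

/-- `x ↦ (x, 0)` -/
noncomputable def inF : E3 →L[ℝ] V6 :=
  (WithLp.prodContinuousLinearEquiv 2 ℝ E3 E3).symm.toContinuousLinearMap.comp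
    (ContinuousLinearMap.inl ℝ E3 E3)

/-- `x ↦ (0, x)` -/
noncomputable def inS : E3 →L[ℝ] V6 :=
  (WithLp.prodContinuousLinearEquiv 2 ℝ E3 E3).symm.toContinuousLinearMap.comp
    (ContinuousLinearMap.inr ℝ E3 E3)

theorem inF_apply (x : E3) : inF x = WithLp.toLp 2 (x, 0) := rfl
theorem inS_apply (x : E3) : inS x = WithLp.toLp 2 (0, x) := rfl

/-- the points of the torus -/
noncomputable def tp (α β : ℝ) : V6 := WithLp.toLp 2 (ee α, ee β)

theorem tp_fst (α β : ℝ) : (tp α β).fst = ee α := rfl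
theorem tp_snd (α β : ℝ) : (tp α β).snd = ee β := rfl

theorem tp_mem (α β : ℝ) : tp α β ∈ NN1 := ⟨⟨norm_ee α, ee_two α⟩, ⟨norm_ee β, ee_two β⟩⟩

theorem tp_mem_MM {α β : ℝ} (h : ee α = ee β) : tp α β ∈ MM := ⟨⟨norm_ee α, ee_two α⟩, h⟩

theorem exists_tp {p : V6} (hp : p ∈ NN1) : ∃ α β, p = tp α β := by
  obtain ⟨α, hα⟩ := exists_ee hp.1.1 hp.1.2
  obtain ⟨β, hβ⟩ := exists_ee hp.2.1 hp.2.2
  refine ⟨α, β, ?_⟩
  unfold tp
  rw [← hα, ← hβ]
  rfl

/-- the covering on path spaces -/
noncomputable def back (z : H1 ℝ × H1 ℝ) : H1 V6 :=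
  map inF (comp ee z.1) + map inS (comp ee z.2)

theorem continuous_back : Continuous back :=
  ((continuous_map inF).comp (continuous_comp_ee.comp continuous_fst)).add
    ((continuous_map inS).comp (continuous_comp_ee.comp continuous_snd))

theorem path_back (z : H1 ℝ × H1 ℝ) {t : ℝ} (ht : t ∈ Icc (0 : ℝ) 1) :
    path (back z) t = tp (path z.1 t) (path z.2 t) := by
  unfold back
  rw [path_add _ _ ht, path_map _ _ ht, path_map _ _ ht, path_comp_ee _ ht, path_comp_ee _ ht,
    inF_apply, inS_apply]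
  rw [← WithLp.toLp_add]
  simp [tp]

/-- the lift of a path in the torus -/
noncomputable def liftP (α β : ℝ) (γ : H1 V6) : H1 ℝ × H1 ℝ :=
  (lift α (map prF γ), lift β (map prS γ))

theorem continuous_liftP (α β : ℝ) : Continuous (liftP α β) :=
  ((continuous_lift α).comp (continuous_map prF)).prodMk
    ((continuous_lift β).comp (continuous_map prS))

theorem path_liftP_one (α β : ℝ) (γ : H1 V6) :
    path (liftP α β γ).1 1 = α ∧ path (liftP α β γ).2 1 = β :=
  ⟨path_lift_one _ _, path_lift_one _ _⟩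

theorem liftP_back {α β : ℝ} {z : H1 ℝ × H1 ℝ} (h1 : path z.1 1 = α) (h2 : path z.2 1 = β) :
    liftP α β (back z) = z := by
  have e1 : map prF (back z) = comp ee z.1 := by
    refine path_injective fun t ht => ?_
    rw [path_prF _ ht, path_back z ht, path_comp_ee _ ht, tp_fst]
  have e2 : map prS (back z) = comp ee z.2 := by
    refine path_injective fun t ht => ?_
    rw [path_prS _ ht, path_back z ht, path_comp_ee _ ht, tp_snd]
  unfold liftP
  rw [e1, e2, lift_comp_ee h1, lift_comp_ee h2]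

theorem path_liftP {α β : ℝ} {γ : H1 V6} (hγ : γ ∈ PathSpace NN1 MM (tp α β)) {t : ℝ}
    (ht : t ∈ Icc (0 : ℝ) 1) :
    (path γ t).fst = ee (path (liftP α β γ).1 t) ∧ (path γ t).snd = ee (path (liftP α β γ).2 t) := by
  obtain ⟨h0, h1, hN⟩ := hγ
  have e1 : comp ee (lift α (map prF γ)) = map prF γ := by
    refine comp_ee_lift (fun t ht => ?_) ?_
    · rw [path_prF γ ht]
      exact (hN t ht).1
    · rw [path_prF γ one_mem_I, h1, tp_fst]
  have e2 : comp ee (lift β (map prS γ)) = map prS γ := by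
    refine comp_ee_lift (fun t ht => ?_) ?_
    · rw [path_prS γ ht]
      exact (hN t ht).2
    · rw [path_prS γ one_mem_I, h1, tp_snd]
  constructor
  · rw [← path_prF γ ht, ← e1, path_comp_ee _ ht]
    rfl
  · rw [← path_prS γ ht, ← e2, path_comp_ee _ ht]
    rfl

theorem back_liftP {α β : ℝ} {γ : H1 V6} (hγ : γ ∈ PathSpace NN1 MM (tp α β)) :
    back (liftP α β γ) = γ := by
  refine path_injective fun t ht => ?_
  obtain ⟨h1, h2⟩ := path_liftP hγ ht
  rw [path_back _ ht]
  unfold tp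
  rw [← h1, ← h2]
  rfl

theorem back_mem {α β : ℝ} {z : H1 ℝ × H1 ℝ} (h1 : path z.1 1 = α) (h2 : path z.2 1 = β)
    (h0 : ∃ n : ℤ, path z.1 0 - path z.2 0 = 2 * Real.pi * n) :
    back z ∈ PathSpace NN1 MM (tp α β) := by
  refine ⟨?_, ?_, fun t ht => ?_⟩
  · rw [path_back z zero_mem_I]
    exact tp_mem_MM ((ee_eq_iff _ _).2 h0)
  · rw [path_back z one_mem_I, h1, h2]
  · rw [path_back z ht]
    exact tp_mem _ _

theorem exists_index {α β : ℝ} {γ : H1 V6} (hγ : γ ∈ PathSpace NN1 MM (tp α β)) :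
    ∃ n : ℤ, path (liftP α β γ).1 0 - path (liftP α β γ).2 0 = 2 * Real.pi * n := by
  rw [← ee_eq_iff]
  obtain ⟨h1, h2⟩ := path_liftP hγ zero_mem_I
  rw [← h1, ← h2]
  exact hγ.1.2

open Classical in
/-- the component of a path -/
noncomputable def ind (α β : ℝ) (γ : PathSpace NN1 MM (tp α β)) : ℤ :=
  (exists_index γ.2).choose

theorem ind_spec {α β : ℝ} (γ : PathSpace NN1 MM (tp α β)) :
    path (liftP α β γ.1).1 0 - path (liftP α β γ.1).2 0 = 2 * Real.pi * (ind α β γ : ℤ) :=
  (exists_index γ.2).choose_spec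

theorem continuous_ind (α β : ℝ) : Continuous (ind α β) := by
  have h : Continuous (fun γ : PathSpace NN1 MM (tp α β) => ((ind α β γ : ℤ) : ℝ)) := by
    have h1 : (fun γ : PathSpace NN1 MM (tp α β) => ((ind α β γ : ℤ) : ℝ)) =
        fun γ => (path (liftP α β γ.1).1 0 - path (liftP α β γ.1).2 0) / (2 * Real.pi) := by
      funext γ
      rw [ind_spec γ]
      have := Real.pi_pos
      field_simp
    rw [h1]
    have hl : Continuous (fun γ : PathSpace NN1 MM (tp α β) => liftP α β γ.1) :=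
      (continuous_liftP α β).comp continuous_subtype_val
    refine Continuous.div_const ?_ _
    exact ((continuous_path_apply zero_mem_I).comp (continuous_fst.comp hl)).sub
      ((continuous_path_apply zero_mem_I).comp (continuous_snd.comp hl))
  exact Int.isClosedEmbedding_coe_real.isInducing.continuous_iff.2 h

/-- the affine path from `x` to `y` -/
noncomputable def aff (x y : ℝ) : H1 ℝ := ofDeriv x (fun _ => y - x) continuous_const

theorem path_aff (x y : ℝ) {t : ℝ} (ht : t ∈ Icc (0 : ℝ) 1) :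
    path (aff x y) t = x + t * (y - x) := by
  unfold aff
  rw [path_ofDeriv _ _ _ ht]
  simp
  ring

/-- the minimal lifts -/
noncomputable def GG (α β : ℝ) (n : ℤ) : H1 ℝ × H1 ℝ :=
  (aff ((α + β) / 2 + Real.pi * n) α, aff ((α + β) / 2 - Real.pi * n) β)

theorem path_GG_one (α β : ℝ) (n : ℤ) : path (GG α β n).1 1 = α ∧ path (GG α β n).2 1 = β := by
  unfold GG
  simp only [path_aff _ _ one_mem_I]
  constructor <;> ring

theorem path_GG_zero (α β : ℝ) (n : ℤ) :
    path (GG α β n).1 0 - path (GG α β n).2 0 = 2 * Real.pi * n := by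
  unfold GG
  simp only [path_aff _ _ zero_mem_I]
  ring

/-- the geodesics -/
noncomputable def gg (α β : ℝ) (n : ℤ) : PathSpace NN1 MM (tp α β) :=
  ⟨back (GG α β n), back_mem (path_GG_one α β n).1 (path_GG_one α β n).2 ⟨n, path_GG_zero α β n⟩⟩

theorem ind_gg (α β : ℝ) (n : ℤ) : ind α β (gg α β n) = n := by
  have h := ind_spec (gg α β n)
  have h2 : liftP α β (gg α β n).1 = GG α β n :=
    liftP_back (path_GG_one α β n).1 (path_GG_one α β n).2
  rw [h2, path_GG_zero] at h
  have hpi := Real.pi_pos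
  have h3 : ((n : ℤ) : ℝ) = (ind α β (gg α β n) : ℤ) := by
    have : 2 * Real.pi ≠ 0 := by positivity
    exact mul_left_cancel₀ this h
  exact_mod_cast h3.symm

/-- the convex combination of lifts -/
noncomputable def cvx (s : ℝ) (z w : H1 ℝ × H1 ℝ) : H1 ℝ × H1 ℝ := z + s • (w - z)

theorem path_smul {V : Type} [NormedAddCommGroup V] [NormedSpace ℝ V] (s : ℝ)
    (γ : H1 V) {t : ℝ} (ht : t ∈ Icc (0 : ℝ) 1) : path (s • γ) t = s • path γ t := by
  have h1 : ∫ r in (0 : ℝ)..t, (s • γ).2 r = ∫ r in (0 : ℝ)..t, s • γ.2 r :=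
    integral_congr_leb (Lp.coeFn_smul s γ.2) zero_mem_I ht
  unfold path
  rw [h1, intervalIntegral.integral_smul]
  simp

theorem path_cvx_fst (s : ℝ) (z w : H1 ℝ × H1 ℝ) {t : ℝ} (ht : t ∈ Icc (0 : ℝ) 1) :
    path (cvx s z w).1 t = path z.1 t + s * (path w.1 t - path z.1 t) := by
  have h : (cvx s z w).1 = z.1 + s • (w.1 - z.1) := rfl
  rw [h, path_add _ _ ht, path_smul _ _ ht, path_sub _ _ ht]
  rfl

theorem path_cvx_snd (s : ℝ) (z w : H1 ℝ × H1 ℝ) {t : ℝ} (ht : t ∈ Icc (0 : ℝ) 1) :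
    path (cvx s z w).2 t = path z.2 t + s * (path w.2 t - path z.2 t) := by
  have h : (cvx s z w).2 = z.2 + s • (w.2 - z.2) := rfl
  rw [h, path_add _ _ ht, path_smul _ _ ht, path_sub _ _ ht]
  rfl

theorem hom_mem {α β : ℝ} (s : ℝ) (γ : PathSpace NN1 MM (tp α β)) :
    back (cvx s (liftP α β γ.1) (GG α β (ind α β γ))) ∈ PathSpace NN1 MM (tp α β) := by
  obtain ⟨h1, h2⟩ := path_liftP_one α β γ.1
  obtain ⟨h3, h4⟩ := path_GG_one α β (ind α β γ)
  refine back_mem ?_ ?_ ⟨ind α β γ, ?_⟩
  · rw [path_cvx_fst _ _ _ one_mem_I, h1, h3]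
    ring
  · rw [path_cvx_snd _ _ _ one_mem_I, h2, h4]
    ring
  · rw [path_cvx_fst _ _ _ zero_mem_I, path_cvx_snd _ _ _ zero_mem_I]
    have h5 := ind_spec γ
    have h6 := path_GG_zero α β (ind α β γ)
    linear_combination (1 - s) * h5 + s * h6

/-- the deformation -/
noncomputable def homT (α β : ℝ) :
    C(unitInterval × PathSpace NN1 MM (tp α β), PathSpace NN1 MM (tp α β)) where
  toFun z := ⟨_, hom_mem (z.1 : ℝ) z.2⟩
  continuous_toFun := by
    refine Continuous.subtype_mk ?_ _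
    refine continuous_back.comp ?_
    have hs : Continuous (fun z : unitInterval × PathSpace NN1 MM (tp α β) => (z.1 : ℝ)) :=
      continuous_subtype_val.comp continuous_fst
    have hl : Continuous (fun z : unitInterval × PathSpace NN1 MM (tp α β) =>
        liftP α β z.2.1) :=
      (continuous_liftP α β).comp (continuous_subtype_val.comp continuous_snd)
    have hg : Continuous (fun z : unitInterval × PathSpace NN1 MM (tp α β) =>
        GG α β (ind α β z.2)) :=
      (continuous_of_discreteTopology (f := GG α β)).comp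
        ((continuous_ind α β).comp continuous_snd)
    exact hl.add (hs.smul (hg.sub hl))

theorem homT_zero (α β : ℝ) (γ : PathSpace NN1 MM (tp α β)) : homT α β (0, γ) = γ := by
  apply Subtype.ext
  have : cvx ((0 : unitInterval) : ℝ) (liftP α β γ.1) (GG α β (ind α β γ)) = liftP α β γ.1 := by
    simp [cvx]
  change back (cvx ((0 : unitInterval) : ℝ) (liftP α β γ.1) (GG α β (ind α β γ))) = γ.1
  rw [this, back_liftP γ.2]

theorem homT_one (α β : ℝ) (γ : PathSpace NN1 MM (tp α β)) :
    homT α β (1, γ) = gg α β (ind α β γ) := by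
  apply Subtype.ext
  have : cvx ((1 : unitInterval) : ℝ) (liftP α β γ.1) (GG α β (ind α β γ)) =
      GG α β (ind α β γ) := by
    simp [cvx]
  change back (cvx ((1 : unitInterval) : ℝ) (liftP α β γ.1) (GG α β (ind α β γ))) = _
  rw [this]
  rfl

theorem betti_torus (F : Type) [Field F] (α β : ℝ) :
    betti F (PathSpace NN1 MM (tp α β)) 0 = ℵ₀ ∧
      ∀ k, k ≠ 0 → betti F (PathSpace NN1 MM (tp α β)) k = 0 :=
  betti_of_discrete F _ ⟨ind α β, continuous_ind α β⟩ (gg α β) (ind_gg α β) (homT α β)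
    (homT_zero α β) (homT_one α β)

end Pool.Agent.Helper54.Taut
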