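import Mathlib
import Pool.Agent.Helper54.Taut.Torus

/-!
The critical points of the energy for the diagonal circle in the flat torus `C × C`, and the
tautness of the diagonal circle.
-/

set_option autoImplicit false
set_option linter.unusedSectionVars false

open Set Filter MeasureTheory Module Topology
open scoped ContDiff RealInnerProductSpace Cardinal

namespace Pool.Agent.Helper54.Taut

theorem norm_lift_le {α : ℝ} {a : H1 E3}
    (ha : ∀ t ∈ Icc (0 : ℝ) 1, ‖path a t‖ = 1 ∧ path a t 2 = 0) :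
    (α - path (lift α a) 0) ^ 2 ≤ ‖a.2‖ ^ 2 := by
  have h1 : ‖angv a‖ ≤ 1 * ‖a.2‖ := by
    refine Lp.norm_le_mul_norm_of_ae_le_mul ?_
    have hI : ∀ᵐ t ∂leb, t ∈ Icc (0 : ℝ) 1 := ae_restrict_mem measurableSet_Icc
    filter_upwards [coeFn_angv a, hI] with t h2 ht
    rw [h2]
    refine (norm_inner_le_norm _ _).trans ?_
    have h3 := inner_J_J (ha t ht).1 (ha t ht).2
    rw [real_inner_self_eq_norm_sq] at h3
    have h4 := norm_eq_one_of_sq h3
    rw [h4]
  have h2 := norm_integral_le (angv a) one_mem_I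
  have h3 : ∫ s in (0 : ℝ)..1, angv a s = α - path (lift α a) 0 := by
    have h4 := path_lift_one α a
    rw [path_zero]
    unfold path at h4
    rw [lift_snd] at h4
    linarith
  rw [h3] at h2
  rw [one_mul] at h1
  have h5 : ‖α - path (lift α a) 0‖ ≤ ‖a.2‖ := h2.trans h1
  calc (α - path (lift α a) 0) ^ 2 = ‖α - path (lift α a) 0‖ ^ 2 := by
        rw [Real.norm_eq_abs, sq_abs]
    _ ≤ ‖a.2‖ ^ 2 := pow_le_pow_left₀ (norm_nonneg _) h5 2

/-- the angular velocity of the geodesics -/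
noncomputable def om (α β : ℝ) (n : ℤ) : ℝ := (α - β) / 2 - Real.pi * n

theorem energy_torus_ge {α β : ℝ} (γ : PathSpace NN1 MM (tp α β)) :
    2 * om α β (ind α β γ) ^ 2 ≤ energy γ.1 := by
  obtain ⟨h0, h1, hN⟩ := γ.2
  have hA := norm_lift_le (α := α) (a := map prF γ.1) (fun t ht => by
    rw [path_prF γ.1 ht]; exact (hN t ht).1)
  have hB := norm_lift_le (α := β) (a := map prS γ.1) (fun t ht => by
    rw [path_prS γ.1 ht]; exact (hN t ht).2)
  have h2 := ind_spec γ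
  unfold liftP at h2
  simp only at h2
  rw [energy_V6]
  unfold om
  set u := path (lift α (map prF γ.1)) 0
  set v := path (lift β (map prS γ.1)) 0
  have h3 : Real.pi * (ind α β γ : ℤ) = (u - v) / 2 := by linarith
  rw [h3]
  nlinarith [sq_nonneg ((α - u) + (β - v))]

/-- starting point of the geodesics -/
noncomputable def sp (α β : ℝ) (n : ℤ) : V6 :=
  tp ((α + β) / 2 + Real.pi * n) ((α + β) / 2 - Real.pi * n)

/-- direction of the geodesics -/
noncomputable def dr (α β : ℝ) (n : ℤ) : V6 :=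
  WithLp.toLp 2 (J (ee ((α + β) / 2 + Real.pi * n)), -J (ee ((α + β) / 2 - Real.pi * n)))

theorem tp_eq_gc (o u v t : ℝ) :
    tp (u + o * t) (v - o * t) = gc o (tp u v) (WithLp.toLp 2 (J (ee u), -J (ee v))) t := by
  have h1 : ee (u + o * t) = Real.cos (o * t) • ee u + Real.sin (o * t) • J (ee u) := by
    ext i
    fin_cases i <;> simp [ee, Real.cos_add, Real.sin_add]
    · ring
    · ring
  have h2 : ee (v - o * t) = Real.cos (o * t) • ee v + Real.sin (o * t) • (-J (ee v)) := by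
    ext i
    fin_cases i <;> simp [ee, Real.cos_sub, Real.sin_sub]
    · ring
    · ring
  unfold gc tp
  rw [h1, h2, ← WithLp.toLp_smul, ← WithLp.toLp_smul, ← WithLp.toLp_add]
  rfl

/-- the geodesics as smooth curves -/
noncomputable def gcurve (α β : ℝ) (n : ℤ) : ℝ → V6 := gc (om α β n) (sp α β n) (dr α β n)

theorem contDiff_gcurve (α β : ℝ) (n : ℤ) {k : ℕ∞ω} : ContDiff ℝ k (gcurve α β n) :=
  contDiff_gc _ _ _

theorem gcurve_eq (α β : ℝ) (n : ℤ) (t : ℝ) : gcurve α β n t =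
    tp ((α + β) / 2 + Real.pi * n + om α β n * t) ((α + β) / 2 - Real.pi * n - om α β n * t) :=
  (tp_eq_gc _ _ _ _).symm

theorem path_gg (α β : ℝ) (n : ℤ) {t : ℝ} (ht : t ∈ Icc (0 : ℝ) 1) :
    path (gg α β n).1 t = gcurve α β n t := by
  have h : (gg α β n).1 = back (GG α β n) := rfl
  rw [h, path_back _ ht, gcurve_eq]
  unfold GG om
  simp only [path_aff _ _ ht]
  congr 1 <;> ring

theorem ee_sp (α β : ℝ) (n : ℤ) :
    ee ((α + β) / 2 + Real.pi * n) = ee ((α + β) / 2 - Real.pi * n) := by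
  rw [ee_eq_iff]
  exact ⟨n, by ring⟩

theorem gg_isCritical (α β : ℝ) (n : ℤ) : IsCriticalPoint NN1 MM (tp α β) (gg α β n).1 := by
  refine ⟨(gg α β n).2, gcurve α β n, ⟨contDiff_gc _ _ _, fun t => ?_, fun t v hv => ?_⟩,
    ⟨?_, fun v hv => ?_⟩, fun t ht => path_gg α β n ht⟩
  · rw [gcurve_eq]
    exact tp_mem _ _
  · obtain ⟨h1, h2⟩ := tangent_NN1 hv
    unfold gcurve
    unfold gcurve at h1 h2
    rw [deriv_deriv_gc, inner_smul_left, inner_V6, h1, h2]
    simp
  · unfold gcurve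
    rw [gc_zero]
    exact tp_mem_MM (ee_sp α β n)
  · unfold gcurve at hv ⊢
    rw [gc_zero] at hv
    obtain ⟨h1, h2, h3⟩ := tangent_MM hv
    rw [deriv_gc, gc_zero, inner_smul_left, inner_V6, ← h3]
    have h4 : (dr α β n).fst = J (ee ((α + β) / 2 + Real.pi * n)) := rfl
    have h5 : (dr α β n).snd = -J (ee ((α + β) / 2 - Real.pi * n)) := rfl
    rw [h4, h5, ee_sp, inner_neg_left]
    simp

theorem energy_gg (α β : ℝ) (n : ℤ) : energy (gg α β n).1 = 2 * om α β n ^ 2 := by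
  have h : (gg α β n).1 = ofCurve (gcurve α β n) (contDiff_gcurve α β n) := by
    refine path_injective fun t ht => ?_
    rw [path_gg α β n ht, path_ofCurve _ _ ht]
  rw [h]
  refine energy_ofCurve _ _ fun t => ?_
  unfold gcurve
  rw [deriv_gc]
  have hJ : ∀ u, ‖J (ee u)‖ ^ 2 = 1 := fun u => by
    rw [← real_inner_self_eq_norm_sq, inner_J_J (norm_ee u) (ee_two u)]
  refine norm_gc_sq _ _ _ ?_ ?_ ?_ _
  · rw [norm_smul, mul_pow, WithLp.prod_norm_sq_eq_of_L2]
    have h1 : ‖(dr α β n).fst‖ ^ 2 = 1 := hJ _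
    have h2 : ‖(dr α β n).snd‖ ^ 2 = 1 := by
      have : (dr α β n).snd = -J (ee ((α + β) / 2 - Real.pi * n)) := rfl
      rw [this, norm_neg, hJ]
    rw [h1, h2, Real.norm_eq_abs, sq_abs]
    ring
  · rw [norm_neg, norm_smul, mul_pow, WithLp.prod_norm_sq_eq_of_L2]
    have h1 : ‖(sp α β n).fst‖ = 1 := norm_ee _
    have h2 : ‖(sp α β n).snd‖ = 1 := norm_ee _
    rw [h1, h2, Real.norm_eq_abs, sq_abs]
    ring
  · rw [inner_neg_right, inner_smul_left, inner_smul_right, inner_V6]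
    have h1 : ⟪(dr α β n).fst, (sp α β n).fst⟫ = 0 := by
      rw [real_inner_comm]
      exact inner_J_self _
    have h2 : ⟪(dr α β n).snd, (sp α β n).snd⟫ = 0 := by
      rw [real_inner_comm]
      have : (dr α β n).snd = -J (ee ((α + β) / 2 - Real.pi * n)) := rfl
      rw [this, inner_neg_right]
      have h3 : (sp α β n).snd = ee ((α + β) / 2 - Real.pi * n) := rfl
      rw [h3, inner_J_self, neg_zero]
    rw [h1, h2]
    simp

theorem index_gg (α β : ℝ) (n : ℤ) :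
    morseIndex NN1 MM (tp α β) (gg α β n).1 = ((0 : ℕ) : ℕ∞) := by
  refine morseIndex_eq_zero ?_
  have h1 : ∀ᶠ η : PathSpace NN1 MM (tp α β) in 𝓝 (gg α β n), ind α β η = n := by
    have h2 := (continuous_ind α β).tendsto (gg α β n)
    rw [ind_gg] at h2
    exact h2.eventually ((isOpen_discrete ({n} : Set ℤ)).mem_nhds rfl)
  rw [nhds_subtype_eq_comap, eventually_comap] at h1
  filter_upwards [h1] with η hη hP
  have h2 := hη ⟨η, hP⟩ rfl
  have h3 := energy_torus_ge ⟨η, hP⟩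
  rw [h2] at h3
  rw [energy_gg]
  exact h3

/-! ### All critical points -/

theorem norm_rot {x : E3} (hx : ‖x‖ = 1) (hx2 : x 2 = 0) (t : ℝ) :
    ‖gc 1 x (J x) t‖ = 1 ∧ gc 1 x (J x) t 2 = 0 := by
  constructor
  · apply norm_eq_one_of_sq
    refine norm_gc_sq _ _ _ (by rw [hx]; norm_num) ?_ (inner_J_self x) _
    rw [← real_inner_self_eq_norm_sq, inner_J_J hx hx2]
  · simp [gc, hx2]

theorem gc_fst_eq (x n z : E3) (s : ℝ) :
    gc 1 (WithLp.toLp 2 (x, 0) : V6) (WithLp.toLp 2 (n, 0)) s + WithLp.toLp 2 (0, z) =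
      WithLp.toLp 2 (gc 1 x n s, z) := by
  unfold gc
  rw [← WithLp.toLp_smul, ← WithLp.toLp_smul, ← WithLp.toLp_add, ← WithLp.toLp_add]
  simp

theorem gc_snd_eq (x n z : E3) (s : ℝ) :
    gc 1 (WithLp.toLp 2 (0, x) : V6) (WithLp.toLp 2 (0, n)) s + WithLp.toLp 2 (z, 0) =
      WithLp.toLp 2 (z, gc 1 x n s) := by
  unfold gc
  rw [← WithLp.toLp_smul, ← WithLp.toLp_smul, ← WithLp.toLp_add, ← WithLp.toLp_add]
  simp

theorem isTangent_fst {y : V6} (hy : y ∈ NN1) :
    IsTangent NN1 y (WithLp.toLp 2 (J y.fst, 0)) := by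
  refine ⟨fun s => gc 1 (WithLp.toLp 2 (y.fst, 0)) (WithLp.toLp 2 (J y.fst, 0)) s +
    WithLp.toLp 2 (0, y.snd), ?_, ?_, Eventually.of_forall fun s => ?_, ?_⟩
  · exact (contDiff_gc _ _ _).add contDiff_const
  · simp only [gc_zero]
    rw [← WithLp.toLp_add]
    simp
    rfl
  · simp only [gc_fst_eq]
    exact ⟨norm_rot hy.1.1 hy.1.2 s, hy.2⟩
  · have h := (hasDerivAt_gc 1 (WithLp.toLp 2 (y.fst, 0) : V6)
      (WithLp.toLp 2 (J y.fst, 0)) 0).add_const (WithLp.toLp 2 (0, y.snd) : V6)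
    rw [h.deriv, gc_zero]
    simp

theorem isTangent_snd {y : V6} (hy : y ∈ NN1) :
    IsTangent NN1 y (WithLp.toLp 2 (0, J y.snd)) := by
  refine ⟨fun s => gc 1 (WithLp.toLp 2 (0, y.snd)) (WithLp.toLp 2 (0, J y.snd)) s +
    WithLp.toLp 2 (y.fst, 0), ?_, ?_, Eventually.of_forall fun s => ?_, ?_⟩
  · exact (contDiff_gc _ _ _).add contDiff_const
  · simp only [gc_zero]
    rw [← WithLp.toLp_add]
    simp
    rfl
  · simp only [gc_snd_eq]
    exact ⟨hy.1, norm_rot hy.2.1 hy.2.2 s⟩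
  · have h := (hasDerivAt_gc 1 (WithLp.toLp 2 (0, y.snd) : V6)
      (WithLp.toLp 2 (0, J y.snd)) 0).add_const (WithLp.toLp 2 (y.fst, 0) : V6)
    rw [h.deriv, gc_zero]
    simp

theorem isTangent_diag {y : V6} (hy : y ∈ MM) :
    IsTangent MM y (WithLp.toLp 2 (J y.fst, J y.snd)) := by
  refine ⟨gc 1 y (WithLp.toLp 2 (J y.fst, J y.snd)), contDiff_gc _ _ _, gc_zero _ _ _,
    Eventually.of_forall fun s => ?_, ?_⟩
  · have h := norm_rot hy.1.1 hy.1.2 s
    refine ⟨?_, ?_⟩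
    · rw [fst_gc]
      exact h
    · rw [fst_gc, snd_gc]
      change gc 1 y.fst (J y.fst) s = gc 1 y.snd (J y.snd) s
      rw [hy.2]
  · rw [deriv_gc, gc_zero]
    simp

theorem contDiff_deriv {c : ℝ → V6} (hc : ContDiff ℝ ∞ c) : ContDiff ℝ ∞ (deriv c) :=
  (contDiff_infty_iff_deriv.1 hc).2

theorem angular_aux {a a' a'' : ℝ → E3} (h1 : ∀ t, HasDerivAt a (a' t) t)
    (h2 : ∀ t, HasDerivAt a' (a'' t) t) (h : ∀ t, ⟪J (a t), a'' t⟫ = 0) (t : ℝ) :
    ⟪J (a t), a' t⟫ = ⟪J (a 0), a' 0⟫ := by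
  have hw : ∀ t, HasDerivAt (fun t => ⟪J (a t), a' t⟫) 0 t := by
    intro t
    have h3 : HasDerivAt (fun t => J (a t)) (J (a' t)) t :=
      J.hasFDerivAt.comp_hasDerivAt t (h1 t)
    have h4 := h3.inner ℝ (h2 t)
    have h5 : ⟪J (a' t), a' t⟫ = 0 := by
      rw [real_inner_comm]
      exact inner_J_self _
    rwa [h t, h5, add_zero] at h4
  exact is_const_of_deriv_eq_zero (fun x => (hw x).differentiableAt) (fun x => (hw x).deriv) t 0

theorem acc_fst {c : ℝ → V6} (hc : IsGeodesic NN1 c) (t : ℝ) :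
    ⟪J (c t).fst, (deriv (deriv c) t).fst⟫ = 0 := by
  obtain ⟨hc, hcN, hcg⟩ := hc
  have h4 := hcg t _ (isTangent_fst (hcN t))
  rw [inner_V6] at h4
  simp only [WithLp.toLp_fst, WithLp.toLp_snd, inner_zero_right, add_zero] at h4
  rw [real_inner_comm] at h4
  exact h4

theorem acc_snd {c : ℝ → V6} (hc : IsGeodesic NN1 c) (t : ℝ) :
    ⟪J (c t).snd, (deriv (deriv c) t).snd⟫ = 0 := by
  obtain ⟨hc, hcN, hcg⟩ := hc
  have h4 := hcg t _ (isTangent_snd (hcN t))
  rw [inner_V6] at h4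
  simp only [WithLp.toLp_fst, WithLp.toLp_snd, inner_zero_right, zero_add] at h4
  rw [real_inner_comm] at h4
  exact h4

theorem hasDerivAt_curve {V : Type} [NormedAddCommGroup V] [NormedSpace ℝ V] {c : ℝ → V}
    (hc : ContDiff ℝ ∞ c) (t : ℝ) : HasDerivAt c (deriv c t) t :=
  ((hc.differentiable (by simp)).differentiableAt).hasDerivAt

theorem angular_const_fst {c : ℝ → V6} (hc : IsGeodesic NN1 c) (t : ℝ) :
    ⟪J (c t).fst, (deriv c t).fst⟫ = ⟪J (c 0).fst, (deriv c 0).fst⟫ := by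
  have hd1 : ∀ t, HasDerivAt (fun t => (c t).fst) (deriv c t).fst t := fun t =>
    prF.hasFDerivAt.comp_hasDerivAt t (hasDerivAt_curve hc.1 t)
  have hd2 : ∀ t, HasDerivAt (fun t => (deriv c t).fst) (deriv (deriv c) t).fst t := fun t =>
    prF.hasFDerivAt.comp_hasDerivAt t (hasDerivAt_curve (contDiff_deriv hc.1) t)
  exact angular_aux (a := fun t => (c t).fst) (a' := fun t => (deriv c t).fst)
      (a'' := fun t => (deriv (deriv c) t).fst) hd1 hd2 (acc_fst hc) t

theorem angular_const_snd {c : ℝ → V6} (hc : IsGeodesic NN1 c) (t : ℝ) :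
    ⟪J (c t).snd, (deriv c t).snd⟫ = ⟪J (c 0).snd, (deriv c 0).snd⟫ := by
  have hd1 : ∀ t, HasDerivAt (fun t => (c t).snd) (deriv c t).snd t := fun t =>
    prS.hasFDerivAt.comp_hasDerivAt t (hasDerivAt_curve hc.1 t)
  have hd2 : ∀ t, HasDerivAt (fun t => (deriv c t).snd) (deriv (deriv c) t).snd t := fun t =>
    prS.hasFDerivAt.comp_hasDerivAt t (hasDerivAt_curve (contDiff_deriv hc.1) t)
  exact angular_aux (a := fun t => (c t).snd) (a' := fun t => (deriv c t).snd)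
      (a'' := fun t => (deriv (deriv c) t).snd) hd1 hd2 (acc_snd hc) t

theorem path_of_const {g : Lp ℝ 2 leb} {x w : ℝ} (hg : g =ᵐ[leb] fun _ => w) {t : ℝ}
    (ht : t ∈ Icc (0 : ℝ) 1) : path ((x, g) : H1 ℝ) t = x + t * w := by
  unfold path
  rw [integral_congr_leb hg zero_mem_I ht]
  simp

theorem crit_eq {α β : ℝ} {γ : H1 V6} (hγ : IsCriticalPoint NN1 MM (tp α β) γ) :
    ∃ n : ℤ, γ = (gg α β n).1 := by
  obtain ⟨hP, c, hgeo, ⟨hc0, hcs⟩, hpath⟩ := hγ
  have hc1 : ContDiff ℝ 1 c := hgeo.1.of_le (by exact_mod_cast le_top)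
  have hang1 := angular_const_fst hgeo
  have hang2 := angular_const_snd hgeo
  set w1 := ⟪J (c 0).fst, (deriv c 0).fst⟫ with hw1def
  set w2 := ⟪J (c 0).snd, (deriv c 0).snd⟫ with hw2def
  have hsum : w1 + w2 = 0 := by
    have h1 := hcs _ (isTangent_diag hc0)
    rw [inner_V6] at h1
    rw [hw1def, hw2def, real_inner_comm, real_inner_comm (deriv c 0).snd]
    exact h1
  -- the path is the curve
  have hγc : γ = ofCurve c hc1 := by
    refine path_injective fun t ht => ?_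
    rw [path_ofCurve _ _ ht, hpath t ht]
  have hγ2 : γ.2 =ᵐ[leb] deriv c := by
    rw [hγc]
    exact coeFn_ofCurve _ _
  have hI : ∀ᵐ t ∂leb, t ∈ Icc (0 : ℝ) 1 := ae_restrict_mem measurableSet_Icc
  have ha1 : angv (map prF γ) =ᵐ[leb] fun _ => w1 := by
    filter_upwards [coeFn_angv (map prF γ), coeFn_map prF γ, hγ2, hI] with t h1 h2 h3 ht
    rw [h1, h2, h3, path_prF γ ht, hpath t ht]
    exact hang1 t
  have ha2 : angv (map prS γ) =ᵐ[leb] fun _ => w2 := by
    filter_upwards [coeFn_angv (map prS γ), coeFn_map prS γ, hγ2, hI] with t h1 h2 h3 ht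
    rw [h1, h2, h3, path_prS γ ht, hpath t ht]
    exact hang2 t
  obtain ⟨h1, h2⟩ := path_liftP_one α β γ
  obtain ⟨n, hn⟩ := exists_index hP
  rw [path_zero, path_zero] at hn
  have hp1 : ∀ t ∈ Icc (0 : ℝ) 1, path (liftP α β γ).1 t = (liftP α β γ).1.1 + t * w1 :=
    fun t ht => path_of_const ha1 ht
  have hp2 : ∀ t ∈ Icc (0 : ℝ) 1, path (liftP α β γ).2 t = (liftP α β γ).2.1 + t * w2 :=
    fun t ht => path_of_const ha2 ht
  have e1 := hp1 1 one_mem_I
  have e2 := hp2 1 one_mem_I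
  rw [h1] at e1
  rw [h2] at e2
  have hu : (liftP α β γ).1.1 = (α + β) / 2 + Real.pi * n := by linarith
  have hv : (liftP α β γ).2.1 = (α + β) / 2 - Real.pi * n := by linarith
  have hG : liftP α β γ = GG α β n := by
    refine Prod.ext ?_ ?_
    · refine path_injective fun t ht => ?_
      have h3 : path (GG α β n).1 t = ((α + β) / 2 + Real.pi * n) +
        t * (α - ((α + β) / 2 + Real.pi * n)) := path_aff _ _ ht
      rw [hp1 t ht, h3, ← hu]
      have : w1 = α - (liftP α β γ).1.1 := by linarith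
      rw [this]
    · refine path_injective fun t ht => ?_
      have h3 : path (GG α β n).2 t = ((α + β) / 2 - Real.pi * n) +
        t * (β - ((α + β) / 2 - Real.pi * n)) := path_aff _ _ ht
      rw [hp2 t ht, h3, ← hv]
      have : w2 = β - (liftP α β γ).2.1 := by linarith
      rw [this]
  refine ⟨n, ?_⟩
  have h3 := back_liftP hP
  rw [hG] at h3
  exact h3.symm

theorem gg_injective (α β : ℝ) : Function.Injective (gg α β) :=
  Function.LeftInverse.injective (ind_gg α β)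

theorem torus (F : Type) [Field F] (p : V6) (hp : p ∈ NN1) : IsPerfect F NN1 MM p := by
  obtain ⟨α, β, rfl⟩ := exists_tp hp
  obtain ⟨h0, hk⟩ := betti_torus F α β
  intro k
  by_cases hk0 : k = 0
  · subst hk0
    rw [h0]
    have e : ℤ ≃ {γ : H1 V6 // IsCriticalPoint NN1 MM (tp α β) γ ∧
        morseIndex NN1 MM (tp α β) γ = ((0 : ℕ) : ℕ∞)} := by
      refine Equiv.ofBijective
        (fun n => ⟨(gg α β n).1, gg_isCritical α β n, index_gg α β n⟩) ⟨?_, ?_⟩
      · intro m n h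
        have h2 : (gg α β m).1 = (gg α β n).1 := congrArg (fun x => x.1) h
        exact gg_injective α β (Subtype.ext h2)
      · rintro ⟨γ, hγ, -⟩
        obtain ⟨n, rfl⟩ := crit_eq hγ
        exact ⟨n, rfl⟩
    rw [← Cardinal.mk_congr e, Cardinal.mk_int]
  · rw [hk k hk0, Cardinal.mk_eq_zero_iff, isEmpty_subtype]
    rintro γ ⟨hγ, hind⟩
    obtain ⟨n, rfl⟩ := crit_eq hγ
    rw [index_gg] at hind
    have : (0 : ℕ) = k := by exact_mod_cast hind
    exact hk0 this.symm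

end Pool.Agent.Helper54.Taut
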